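import Pool.Agent.TH827.CG.Ideals

/-!
Classes of the ideals: they are killed by `p`, not trivial, and few of them lie in one class.
-/

namespace Pool.Agent.TH827.CG

open NumberField Module Ideal nonZeroDivisors

variable {K : Type} [Field K] [NumberField K] {r : K} {d : ℕ}

/-- the class of an ideal (the trivial class for the zero ideal). -/
noncomputable def cl (I : Ideal (𝓞 K)) : ClassGroup (𝓞 K) :=
  open Classical in
  if hI : I ≠ 0 then ClassGroup.mk0 ⟨I, mem_nonZeroDivisors_of_ne_zero hI⟩ else 1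

lemma cl_mul {I J : Ideal (𝓞 K)} (hI : I ≠ 0) (hJ : J ≠ 0) : cl (I * J) = cl I * cl J := by
  unfold cl
  rw [dif_pos hI, dif_pos hJ, dif_pos (mul_ne_zero hI hJ), ← map_mul]
  rfl

lemma cl_pow {I : Ideal (𝓞 K)} (hI : I ≠ 0) (p : ℕ) : cl (I ^ p) = cl I ^ p := by
  unfold cl
  rw [dif_pos hI, dif_pos (pow_ne_zero p hI), ← map_pow]
  rfl

lemma cl_eq_one {I : Ideal (𝓞 K)} (hI : I ≠ 0) : cl I = 1 ↔ I.IsPrincipal := by
  unfold cl
  rw [dif_pos hI]
  exact ClassGroup.mk0_eq_one_iff _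

lemma span_ne {x : 𝓞 K} (hx : x ≠ 0) : Ideal.span {x} ≠ (0 : Ideal (𝓞 K)) := by
  simpa [Ideal.zero_eq_bot, Ideal.span_singleton_eq_bot] using hx

lemma int_of_two (h : IQ K r d) {x : 𝓞 K} {w : ℤ} (hx : (2 : K) * (x : K) = (w : K)) :
    ∃ k : ℤ, x = (k : 𝓞 K) ∧ w = 2 * k := by
  obtain ⟨u, v, h1, h2⟩ := int_coord h x
  have h3 : ((w : ℚ) : K) + ((0 : ℚ) : K) * r = ((u : ℚ) : K) + ((v : ℚ) : K) * r := by
    push_cast
    rw [zero_mul, add_zero, ← hx, h1]
  obtain ⟨hu, hv⟩ := coords_inj h h3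
  have hu' : w = u := by exact_mod_cast hu
  have hv' : v = 0 := by exact_mod_cast hv.symm
  subst hv'
  subst hu'
  have h4 : Even w := by
    have : Even (w ^ 2) := ⟨2 * Algebra.norm ℤ x, by linarith⟩
    exact (Int.even_pow.1 this).1
  obtain ⟨k, hk⟩ := h4
  refine ⟨k, ?_, by omega⟩
  apply RingOfIntegers.ext
  have h2ne : (2 : K) ≠ 0 := two_ne_zero
  apply mul_left_cancel₀ h2ne
  rw [hx, hk]
  show ((k + k : ℤ) : K) = 2 * algebraMap (𝓞 K) K (k : 𝓞 K)
  rw [map_intCast]; push_cast; ring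

lemma norm_int (h : IQ K r d) (k : ℤ) : Algebra.norm ℤ (k : 𝓞 K) = k ^ 2 := by
  have := norm_al h k 0
  have e : al h k 0 = (k : 𝓞 K) := by unfold al; simp
  rw [e] at this
  rw [this]; ring

section
variable {h : IQ K r d} {p m n s : ℕ} {I J : Ideal (𝓞 K)}

lemma Dat.neI (D : Dat h p m n s I J) (hs : Sol p d m n s) : I ≠ 0 := by
  rintro rfl
  have h1 := D.nI
  rw [Ideal.zero_eq_bot, absNorm_bot] at h1
  have := hs.one
  omega

lemma Dat.neJ (D : Dat h p m n s I J) (hs : Sol p d m n s) : J ≠ 0 := by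
  rintro rfl
  have h1 := D.nJ
  rw [Ideal.zero_eq_bot, absNorm_bot] at h1
  have := hs.one
  omega

lemma Dat.clpow (D : Dat h p m n s I J) (hs : Sol p d m n s) : cl I ^ p = 1 := by
  rw [← cl_pow (D.neI hs), cl_eq_one (pow_ne_zero p (D.neI hs)), D.hI]
  exact ⟨⟨_, rfl⟩⟩

lemma Dat.not_principal (D : Dat h p m n s I J) (hs : Sol p d m n s) (hd : 4 * m < d) :
    cl I ≠ 1 := by
  rw [Ne, cl_eq_one (D.neI hs)]
  rintro ⟨⟨β, hβ⟩⟩
  have hβ' : I = Ideal.span {β} := hβ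
  obtain ⟨u, v, h1, h2⟩ := int_coord h β
  have hnn : 0 ≤ Algebra.norm ℤ β := by
    have : (0 : ℤ) ≤ u ^ 2 + d * v ^ 2 := by positivity
    linarith
  have h3 : Algebra.norm ℤ β = m := by
    have := D.nI
    rw [hβ', absNorm_span_singleton] at this
    omega
  have hv : v = 0 := by
    by_contra hv
    have hv1 : (1 : ℤ) ≤ v ^ 2 := by
      have : (0 : ℤ) < v ^ 2 := by positivity
      omega
    have h4 : (d : ℤ) ≤ d * v ^ 2 := by nlinarith [Int.natCast_nonneg d]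
    have h5 : (0 : ℤ) ≤ u ^ 2 := sq_nonneg u
    have h6 : (4 * m : ℤ) < d := by exact_mod_cast hd
    rw [h3] at h2
    linarith
  subst hv
  obtain ⟨k, hk, hu⟩ := int_of_two h (x := β) (w := u) (by rw [h1]; simp)
  have hm : (m : ℤ) = k ^ 2 := by rw [← h3, hk, norm_int h]
  have h7 : I * J = I * I := by
    rw [D.hIJ, hβ', hk, Ideal.span_singleton_mul_span_singleton]
    congr 2
    have : ((m : ℤ) : 𝓞 K) = ((k ^ 2 : ℤ) : 𝓞 K) := by rw [hm]
    push_cast at this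
    rw [this]; ring
  have h8 : J = I := mul_left_cancel₀ (D.neI hs) h7
  have h9 := D.cop
  rw [h8, isCoprime_self, isUnit_iff] at h9
  have h10 := D.nI
  rw [h9, absNorm_top] at h10
  have := hs.one
  omega

end

lemma eq_of_rat (h : IQ K r d) {p m n s m1 n1 s1 : ℕ} {I J I1 J1 : Ideal (𝓞 K)}
    (D : Dat h p m n s I J) (hs : Sol p d m n s)
    (D1 : Dat h p m1 n1 s1 I1 J1) (hs1 : Sol p d m1 n1 s1) {k : ℤ}
    (hk : I * J1 = Ideal.span {(k : 𝓞 K)}) : I = I1 := by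
  have hne : Ideal.span {(k : 𝓞 K)} ≠ (0 : Ideal (𝓞 K)) := by
    rw [← hk]; exact mul_ne_zero (D.neI hs) (D1.neJ hs1)
  have h1 : ((m * m1 : ℕ) : ℤ) = k ^ 2 := by
    have h2 : absNorm (I * J1) = m * m1 := by rw [map_mul, D.nI, D1.nJ]
    rw [hk, absNorm_span_singleton, norm_int h] at h2
    rw [← h2]
    exact Int.natAbs_of_nonneg (sq_nonneg k)
  have h2 : Ideal.span {(k : 𝓞 K)} * (J * I1) = Ideal.span {(k : 𝓞 K)} * Ideal.span {(k : 𝓞 K)} := by
    calc Ideal.span {(k : 𝓞 K)} * (J * I1) = (I * J) * (I1 * J1) := by rw [← hk]; ring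
    _ = _ := by
      rw [D.hIJ, D1.hIJ, Ideal.span_singleton_mul_span_singleton,
        Ideal.span_singleton_mul_span_singleton]
      congr 2
      have : (((m * m1 : ℕ) : ℤ) : 𝓞 K) = ((k ^ 2 : ℤ) : 𝓞 K) := by rw [h1]
      push_cast at this
      rw [this]; ring
  have h3 : J * I1 = I * J1 := by rw [hk]; exact mul_left_cancel₀ hne h2
  apply dvd_antisymm
  · exact D.cop.dvd_of_dvd_mul_left (h3 ▸ Dvd.intro _ rfl)
  · exact D1.cop.dvd_of_dvd_mul_right (h3 ▸ Dvd.intro_left _ rfl)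

lemma dat_inj (h : IQ K r d) (hd : 4 < d) {p m n s m1 n1 s1 : ℕ} {I J J1 : Ideal (𝓞 K)}
    (D : Dat h p m n s I J) (hs : Sol p d m n s)
    (D1 : Dat h p m1 n1 s1 I J1) (hs1 : Sol p d m1 n1 s1) : m = m1 ∧ n = n1 ∧ s = s1 := by
  have hm : m = m1 := by rw [← D.nI, ← D1.nI]
  subst hm
  have h1 : Ideal.span {al h n s} = Ideal.span {al h n1 s1} := by rw [← D.hI, ← D1.hI]
  rw [Ideal.span_singleton_eq_span_singleton] at h1
  obtain ⟨ε, hε⟩ := h1
  obtain ⟨u, v, h2, h3⟩ := int_coord h (ε : 𝓞 K)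
  have hN : Algebra.norm ℤ (al h n s) = (m ^ p : ℕ) := by
    rw [norm_al, ← hs.eq]; push_cast; ring
  have hN1 : Algebra.norm ℤ (al h n1 s1) = (m ^ p : ℕ) := by
    rw [norm_al, ← hs1.eq]; push_cast; ring
  have hmp : ((m ^ p : ℕ) : ℤ) ≠ 0 := by
    have : 0 < m := by have := hs.one; omega
    positivity
  have h4 : Algebra.norm ℤ (ε : 𝓞 K) = 1 := by
    have := congrArg (Algebra.norm ℤ) hε
    rw [map_mul, hN, hN1] at this
    exact mul_left_cancel₀ hmp (by rw [this, mul_one])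
  rw [h4] at h3
  have hv : v = 0 := by
    by_contra hv
    have hv1 : (1 : ℤ) ≤ v ^ 2 := by
      have : (0 : ℤ) < v ^ 2 := by positivity
      omega
    have h5 : (4 : ℤ) < d := by exact_mod_cast hd
    nlinarith [sq_nonneg u]
  subst hv
  obtain ⟨k, hk, hu⟩ := int_of_two h (x := (ε : 𝓞 K)) (w := u) (by rw [h2]; simp)
  have hk2 : k ^ 2 = 1 := by rw [← h4, hk, norm_int h]
  have h6 : ((n1 : ℚ) : K) + ((s1 : ℚ) : K) * r = ((k * n : ℚ) : K) + ((k * s : ℚ) : K) * r := by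
    have h7 := al_coe h n1 s1
    rw [← hε, hk] at h7
    have h8 : (((al h n s) * (k : 𝓞 K) : 𝓞 K) : K) = (((n : ℚ) : K) + ((s : ℚ) : K) * r) * (k : K) := by
      have h9 := al_coe h n s
      show algebraMap (𝓞 K) K (al h n s * (k : 𝓞 K)) = _
      rw [map_mul, map_intCast]
      have h9' : algebraMap (𝓞 K) K (al h n s) = ((n : ℚ) : K) + ((s : ℚ) : K) * r := by
        simpa using h9
      rw [h9']
    rw [h8] at h7
    push_cast at h7 ⊢
    rw [← h7]; ring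
  obtain ⟨h9, h10⟩ := coords_inj h h6
  have h11 : (n1 : ℤ) = k * n := by exact_mod_cast h9
  have h12 : (s1 : ℤ) = k * s := by exact_mod_cast h10
  have hk1 : k = 1 := by
    rcases mul_self_eq_one_iff.1 (show k * k = 1 by rw [← sq]; exact hk2) with h | h
    · exact h
    · exfalso
      rw [h] at h11
      have := hs.npos
      have := hs1.npos
      omega
  rw [hk1] at h11 h12
  refine ⟨rfl, ?_, ?_⟩ <;> omega

end Pool.Agent.TH827.CG
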