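import Pool.Agent.TH827.CG.Field

/-! Existence of the quadratic fields (after `TH699/TW12/Fields`). -/

namespace Pool.Agent.TH827.CG

open Polynomial NumberField Module

theorem exists_IQ (d : ℕ) (hd0 : 0 < d) (hsf : Squarefree d) :
    ∃ (K : Type) (_ : Field K) (_ : NumberField K) (r : K), IQ K r d := by
  have hm : (X ^ 2 + C (d : ℚ) : ℚ[X]).Monic := by monicity!
  have hd : (X ^ 2 + C (d : ℚ) : ℚ[X]).natDegree = 2 := by compute_degree!
  have hirr : Irreducible (X ^ 2 + C (d : ℚ) : ℚ[X]) := by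
    rw [hm.irreducible_iff_roots_eq_zero_of_degree_le_three (by rw [hd]) (by rw [hd]; norm_num)]
    rw [Multiset.eq_zero_iff_forall_notMem]
    intro z hz
    rw [mem_roots hm.ne_zero, IsRoot.def] at hz
    simp at hz
    have : (0 : ℚ) < d := by exact_mod_cast hd0
    nlinarith [sq_nonneg z]
  have := Fact.mk hirr
  have hfin : finrank ℚ (AdjoinRoot (X ^ 2 + C (d : ℚ) : ℚ[X])) = 2 := by
    rw [(AdjoinRoot.powerBasis hm.ne_zero).finrank, AdjoinRoot.powerBasis_dim, hd]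
  have hcast : AdjoinRoot.of (X ^ 2 + C (d : ℚ) : ℚ[X]) (d : ℚ) =
      ((d : ℕ) : AdjoinRoot (X ^ 2 + C (d : ℚ) : ℚ[X])) := map_natCast _ d
  refine ⟨AdjoinRoot (X ^ 2 + C (d : ℚ) : ℚ[X]), inferInstance, inferInstance,
    AdjoinRoot.root _, ⟨?_, ?_, hd0, hsf⟩⟩
  · convert hfin
  · have h := AdjoinRoot.eval₂_root (X ^ 2 + C (d : ℚ) : ℚ[X])
    rw [eval₂_add, eval₂_pow, eval₂_X, eval₂_C, hcast] at h
    exact eq_neg_of_add_eq_zero_left h

end Pool.Agent.TH827.CG
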