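import Pool.Agent.TH827.CG.Class

/-!
At most `1 + 68 V` of the ideals of norm in `(B, 16 B]` lie in one class, and the resulting bound for
the number of solutions.
-/

namespace Pool.Agent.TH827.CG

open NumberField Module Ideal nonZeroDivisors

variable {K : Type} [Field K] [NumberField K] {r : K} {d : ℕ}

/-- an integer in the second ideal is divisible by `m`. -/
lemma dvd_of_mem (h : IQ K r d) {p m n s : ℕ} (hp : p ≠ 0) {I J : Ideal (𝓞 K)}
    (D : Dat h p m n s I J) (hs : Sol p d m n s) {k : ℤ} (hk : (k : 𝓞 K) ∈ J) : (m : ℤ) ∣ k := by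
  have h1 : (k : 𝓞 K) ^ p ∈ Ideal.span {al h n (-s)} := by
    rw [← D.hJ]; exact Ideal.pow_mem_pow hk p
  rw [Ideal.mem_span_singleton] at h1
  obtain ⟨γ, hγ⟩ := h1
  have hmul : al h n s * al h n (-s) = ((m : 𝓞 K)) ^ p := by
    rw [al_mul]
    have : ((n : ℤ) ^ 2 + (s : ℤ) ^ 2 * d) = ((m ^ p : ℕ) : ℤ) := by
      rw [← hs.eq]; push_cast; ring
    rw [this]; push_cast; rfl
  have h2 : ((k ^ p : ℤ)) • al h n s = ((m : ℤ) ^ p) • γ := by
    rw [zsmul_eq_mul, zsmul_eq_mul]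
    push_cast
    rw [← hmul, hγ]; ring
  have h3 := congrArg (Algebra.trace ℤ (𝓞 K)) h2
  rw [map_zsmul, map_zsmul, trace_al, smul_eq_mul, smul_eq_mul] at h3
  have h4 : (m : ℤ) ^ p ∣ k ^ p * (2 * n) := ⟨_, h3⟩
  have h5 : IsCoprime ((m : ℤ) ^ p) (2 * (n : ℤ)) := by
    apply IsCoprime.pow_left
    have : Nat.Coprime m (2 * n) := by
      apply Nat.Coprime.mul_right
      · exact (Nat.coprime_two_right).2 hs.odd
      · exact hs.cop.symm
    have := Nat.isCoprime_iff_coprime.2 this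
    push_cast at this
    exact this
  exact (Int.pow_dvd_pow_iff hp).1 (h5.dvd_of_dvd_mul_right h4)

set_option maxHeartbeats 400000 in
lemma fiber (h : IQ K r d) {p : ℕ} (hp : p ≠ 0) {B V : ℕ} (hB0 : 0 < B) (hB : 64 * B < d)
    (hV : 1024 * B ^ 2 < (V + 1) ^ 2 * d) (S : Finset (ℕ × ℕ × ℕ))
    (I J : ℕ × ℕ × ℕ → Ideal (𝓞 K))
    (hS : ∀ τ ∈ S, Sol p d τ.1 τ.2.1 τ.2.2 ∧ Dat h p τ.1 τ.2.1 τ.2.2 (I τ) (J τ) ∧
      B < τ.1 ∧ τ.1 ≤ 16 * B) (c : ClassGroup (𝓞 K)) (hc : ∀ τ ∈ S, cl (I τ) = c) :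
    S.card ≤ 1 + 68 * V := by
  classical
  rcases S.eq_empty_or_nonempty with hE | ⟨τ1, hτ1⟩
  · rw [hE]; simp
  obtain ⟨s1, D1, b1, b1'⟩ := hS τ1 hτ1
  have key : ∀ τ ∈ S, ∃ β : 𝓞 K, ∃ u v : ℤ, I τ * J τ1 = Ideal.span {β} ∧
      (2 : K) * (β : K) = (u : K) + (v : K) * r ∧ u ^ 2 + d * v ^ 2 ≤ 1024 * (B : ℤ) ^ 2 := by
    intro τ hτ
    obtain ⟨s2, D2, b2, b2'⟩ := hS τ hτ
    have hpr : (I τ * J τ1).IsPrincipal := by
      rw [← cl_eq_one (mul_ne_zero (D2.neI s2) (D1.neJ s1)), cl_mul (D2.neI s2) (D1.neJ s1),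
        hc τ hτ, ← hc τ1 hτ1, ← cl_mul (D1.neI s1) (D1.neJ s1),
        cl_eq_one (mul_ne_zero (D1.neI s1) (D1.neJ s1)), D1.hIJ]
      exact ⟨⟨_, rfl⟩⟩
    obtain ⟨⟨β, hβ⟩⟩ := hpr
    have hβ' : I τ * J τ1 = Ideal.span {β} := hβ
    obtain ⟨u, v, h1, h2⟩ := int_coord h β
    refine ⟨β, u, v, hβ', h1, ?_⟩
    have h3 : absNorm (I τ * J τ1) = τ.1 * τ1.1 := by rw [map_mul, D2.nI, D1.nJ]
    rw [hβ', absNorm_span_singleton] at h3
    have h4 : Algebra.norm ℤ β ≤ (τ.1 * τ1.1 : ℕ) := by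
      rw [← h3]; exact Int.le_natAbs
    have h5 : τ.1 * τ1.1 ≤ (16 * B) * (16 * B) := Nat.mul_le_mul b2' b1'
    have h6 : ((τ.1 * τ1.1 : ℕ) : ℤ) ≤ (16 * B) * (16 * B) := by exact_mod_cast h5
    rw [← h2]
    linarith [h4.trans h6]
  choose! β u v hβ huv hle using key
  have hvV : ∀ τ ∈ S, |v τ| ≤ V := by
    intro τ hτ
    have h1 := hle τ hτ
    have h2 : (1024 * (B : ℤ) ^ 2) < ((V : ℤ) + 1) ^ 2 * d := by exact_mod_cast hV
    have hd0 : (0 : ℤ) < d := by exact_mod_cast h.pos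
    have h3 : (v τ) ^ 2 * d < ((V : ℤ) + 1) ^ 2 * d := by nlinarith [sq_nonneg (u τ)]
    have h4 : (v τ) ^ 2 < ((V : ℤ) + 1) ^ 2 := lt_of_mul_lt_mul_right h3 hd0.le
    have h5 : |v τ| < (V : ℤ) + 1 := by
      apply abs_lt_of_sq_lt_sq h4
      positivity
    omega
  have huU : ∀ τ ∈ S, |u τ| ≤ 32 * B := by
    intro τ hτ
    have h1 := hle τ hτ
    have hd0 : (0 : ℤ) < d := by exact_mod_cast h.pos
    have h3 : (u τ) ^ 2 ≤ (32 * (B : ℤ)) ^ 2 := by nlinarith [sq_nonneg (v τ)]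
    apply abs_le_of_sq_le_sq h3
    positivity
  have hBZ : (0 : ℤ) < 2 * B := by exact_mod_cast (by omega : 0 < 2 * B)
  have hv0 : ∀ τ ∈ S, τ ≠ τ1 → v τ ≠ 0 := by
    intro τ hτ hne hv
    obtain ⟨s2, D2, b2, b2'⟩ := hS τ hτ
    have h1 := huv τ hτ
    rw [hv] at h1
    obtain ⟨k, hk, -⟩ := int_of_two h (x := β τ) (w := u τ) (by rw [h1]; simp)
    have h2 := hβ τ hτ
    rw [hk] at h2
    have h3 := eq_of_rat h D2 s2 D1 s1 h2
    rw [h3] at D2
    have h4 := dat_inj h (by omega) D2 s2 D1 s1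
    apply hne
    exact Prod.ext h4.1 (Prod.ext h4.2.1 h4.2.2)
  have hcard : (S.erase τ1).card ≤
      (((Finset.Icc (-(V : ℤ)) V).erase 0) ×ˢ (Finset.Icc (-17 : ℤ) 16)).card := by
    apply Finset.card_le_card_of_injOn (fun τ => (v τ, (u τ) / (2 * B)))
    · intro τ hτ
      have hτ' := Finset.mem_erase.1 (Finset.mem_coe.1 hτ)
      have a1 := hvV τ hτ'.2
      have a2 := huU τ hτ'.2
      rw [abs_le] at a1 a2
      rw [Finset.mem_coe, Finset.mem_product, Finset.mem_erase, Finset.mem_Icc, Finset.mem_Icc]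
      refine ⟨⟨hv0 τ hτ'.2 hτ'.1, a1⟩, ?_, ?_⟩
      · rw [Int.le_ediv_iff_mul_le hBZ]; linarith
      · have : u τ / (2 * B) < 17 := by
          rw [Int.ediv_lt_iff_lt_mul hBZ]; linarith
        show u τ / (2 * (B : ℤ)) ≤ 16
        omega
    · intro τ hτ τ' hτ' hEq
      have g1 := (Finset.mem_erase.1 (Finset.mem_coe.1 hτ)).2
      have g2 := (Finset.mem_erase.1 (Finset.mem_coe.1 hτ')).2
      obtain ⟨e1, e2⟩ := Prod.ext_iff.1 hEq
      have e1' : v τ = v τ' := e1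
      have e2' : (u τ) / (2 * B) = (u τ') / (2 * B) := e2
      have hw : |u τ - u τ'| < 2 * B := by
        have q1 := Int.emod_nonneg (u τ) hBZ.ne'
        have q2 := Int.emod_lt_of_pos (u τ) hBZ
        have q3 := Int.emod_nonneg (u τ') hBZ.ne'
        have q4 := Int.emod_lt_of_pos (u τ') hBZ
        have q5 := Int.mul_ediv_add_emod (u τ) (2 * B)
        have q6 := Int.mul_ediv_add_emod (u τ') (2 * B)
        rw [e2'] at q5
        rw [abs_lt]
        constructor <;> linarith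
      obtain ⟨k, hk, hk2⟩ := int_of_two h (x := β τ - β τ') (w := u τ - u τ') (by
        show (2 : K) * algebraMap (𝓞 K) K (β τ - β τ') = _
        rw [map_sub]
        have t1 : (2 : K) * algebraMap (𝓞 K) K (β τ) = (u τ : K) + (v τ : K) * r := huv τ g1
        have t2 : (2 : K) * algebraMap (𝓞 K) K (β τ') = (u τ' : K) + (v τ' : K) * r := huv τ' g2
        rw [mul_sub, t1, t2, e1']; push_cast; ring)
      have hmem : ((k : ℤ) : 𝓞 K) ∈ J τ1 := by
        rw [← hk]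
        apply Ideal.sub_mem
        · have : β τ ∈ I τ * J τ1 := by rw [hβ τ g1]; exact Ideal.mem_span_singleton_self _
          exact (Ideal.mul_le_right : I τ * J τ1 ≤ J τ1) this
        · have : β τ' ∈ I τ' * J τ1 := by rw [hβ τ' g2]; exact Ideal.mem_span_singleton_self _
          exact (Ideal.mul_le_right : I τ' * J τ1 ≤ J τ1) this
      have hdv := dvd_of_mem h hp D1 s1 hmem
      have hk0 : k = 0 := by
        apply Int.eq_zero_of_abs_lt_dvd hdv
        have : |2 * k| < 2 * B := by rw [← hk2]; exact hw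
        rw [abs_mul] at this
        have h22 : |(2 : ℤ)| = 2 := by norm_num
        rw [h22] at this
        have : (B : ℤ) < τ1.1 := by exact_mod_cast b1
        linarith
      rw [hk0] at hk
      have hββ : β τ = β τ' := by
        have := hk
        simp only [Int.cast_zero] at this
        exact sub_eq_zero.1 this
      have hII : I τ = I τ' := by
        have t1 := hβ τ g1
        rw [hββ, ← hβ τ' g2] at t1
        exact mul_right_cancel₀ (D1.neJ s1) t1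
      obtain ⟨s2, D2, -, -⟩ := hS τ g1
      obtain ⟨s3, D3, -, -⟩ := hS τ' g2
      rw [hII] at D2
      have h4 := dat_inj h (by omega) D2 s2 D3 s3
      exact Prod.ext h4.1 (Prod.ext h4.2.1 h4.2.2)
  have hc1 : (((Finset.Icc (-(V : ℤ)) V).erase 0) ×ˢ (Finset.Icc (-17 : ℤ) 16)).card = 68 * V := by
    rw [Finset.card_product, Finset.card_erase_of_mem (by simp), Int.card_Icc, Int.card_Icc]
    have : ((V : ℤ) + 1 - -(V : ℤ)).toNat = 2 * V + 1 := by omega
    have h10 : ((16 : ℤ) + 1 - -17).toNat = 34 := rfl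
    rw [this, h10]
    omega
  rw [hc1, Finset.card_erase_of_mem hτ1] at hcard
  omega

/-- the number of solutions is bounded by the number of nontrivial classes killed by `p`. -/
theorem main_count (h : IQ K r d) {p : ℕ} (hp : p ≠ 0) {B V : ℕ} (hB0 : 0 < B) (hB : 64 * B < d)
    (hV : 1024 * B ^ 2 < (V + 1) ^ 2 * d) (S : Finset (ℕ × ℕ × ℕ))
    (hS : ∀ τ ∈ S, Sol p d τ.1 τ.2.1 τ.2.2 ∧ B < τ.1 ∧ τ.1 ≤ 16 * B) :
    S.card ≤ (1 + 68 * V) * (Nat.card {c : ClassGroup (𝓞 K) // c ^ p = 1} - 1) := by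
  classical
  have hex : ∀ τ ∈ S, ∃ I J : Ideal (𝓞 K), Dat h p τ.1 τ.2.1 τ.2.2 I J :=
    fun τ hτ => exists_dat h hp (hS τ hτ).1
  choose! I J hD using hex
  have hcard : Nat.card {c : ClassGroup (𝓞 K) // c ^ p = 1} - 1 =
      (Finset.univ.filter (fun c : ClassGroup (𝓞 K) => c ^ p = 1 ∧ c ≠ 1)).card := by
    rw [Nat.card_eq_fintype_card, Fintype.card_subtype]
    have : (Finset.univ.filter (fun c : ClassGroup (𝓞 K) => c ^ p = 1 ∧ c ≠ 1)) =
        (Finset.univ.filter (fun c : ClassGroup (𝓞 K) => c ^ p = 1)).erase 1 := by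
      ext c; simp [and_comm]
    rw [this, Finset.card_erase_of_mem (by simp)]
  rw [hcard]
  apply Finset.card_le_mul_card_image_of_maps_to (f := fun τ => cl (I τ))
  · intro τ hτ
    obtain ⟨s2, b1, b2⟩ := hS τ hτ
    rw [Finset.mem_filter]
    exact ⟨Finset.mem_univ _, (hD τ hτ).clpow s2, (hD τ hτ).not_principal s2 (by omega)⟩
  · intro c _
    apply fiber h hp hB0 hB hV _ I J (c := c)
    · intro τ hτ
      have hτ' := (Finset.mem_filter.1 hτ).1
      exact ⟨(hS τ hτ').1, hD τ hτ', (hS τ hτ').2⟩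
    · intro τ hτ
      exact (Finset.mem_filter.1 hτ).2

end Pool.Agent.TH827.CG
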