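import Mathlib

/-!
Imaginary quadratic fields: coordinates, norms, ideals from the equation `n^2 + s^2 d = m^p`.
-/

namespace Pool.Agent.TH827.CG

open NumberField Module

variable {K : Type} [Field K] [NumberField K]

/-- `K = ℚ(r)`, `r ^ 2 = -d`, of degree two. -/
structure IQ (K : Type) [Field K] [NumberField K] (r : K) (d : ℕ) : Prop where
  fr : finrank ℚ K = 2
  sq : r ^ 2 = -(d : K)
  pos : 0 < d
  sf : Squarefree d

lemma not_rat {r : K} {d : ℕ} (h : IQ K r d) (q : ℚ) : (q : K) ≠ r := by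
  intro hq
  have h1 := h.sq
  rw [← hq] at h1
  have h2 : (q : ℚ) ^ 2 = -(d : ℚ) := by exact_mod_cast h1
  have h3 : (0 : ℚ) < d := by exact_mod_cast h.pos
  nlinarith [sq_nonneg q]

lemma linInd {r : K} {d : ℕ} (h : IQ K r d) : LinearIndependent ℚ ![(1 : K), r] := by
  rw [LinearIndependent.pair_iff]
  intro s t hst
  have hst' : (s : K) + (t : K) * r = 0 := by
    simpa [Algebra.smul_def, Rat.smul_def] using hst
  by_cases ht : t = 0
  · subst ht
    refine ⟨?_, rfl⟩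
    have : (s : K) = 0 := by simpa using hst'
    exact_mod_cast this
  · exfalso
    apply not_rat h (-s / t)
    have : (t : K) ≠ 0 := by exact_mod_cast ht
    push_cast
    field_simp
    linear_combination -hst'

/-- the basis `1, r`. -/
noncomputable def bas {r : K} {d : ℕ} (h : IQ K r d) : Basis (Fin 2) ℚ K :=
  basisOfLinearIndependentOfCardEqFinrank (linInd h) (by rw [h.fr]; simp)

lemma bas0 {r : K} {d : ℕ} (h : IQ K r d) : bas h 0 = 1 := by simp [bas]
lemma bas1 {r : K} {d : ℕ} (h : IQ K r d) : bas h 1 = r := by simp [bas]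

lemma coords {r : K} {d : ℕ} (h : IQ K r d) (x : K) : ∃ a b : ℚ, x = (a : K) + (b : K) * r := by
  refine ⟨(bas h).repr x 0, (bas h).repr x 1, ?_⟩
  conv_lhs => rw [← (bas h).sum_repr x]
  rw [Fin.sum_univ_two, bas0, bas1]
  simp [Rat.smul_def]

lemma repr_eq {r : K} {d : ℕ} (h : IQ K r d) (a b : ℚ) (x : K) (hx : x = (a : K) + (b : K) * r) :
    (bas h).repr x 0 = a ∧ (bas h).repr x 1 = b := by
  have hx' : x = a • bas h 0 + b • bas h 1 := by
    rw [bas0, bas1, hx]; simp [Rat.smul_def]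
  constructor
  · rw [hx']; simp
  · rw [hx']; simp

lemma coords_inj {r : K} {d : ℕ} (h : IQ K r d) {a b a' b' : ℚ}
    (e : (a : K) + (b : K) * r = (a' : K) + (b' : K) * r) : a = a' ∧ b = b' := by
  have h1 := repr_eq h a b _ rfl
  have h2 := repr_eq h a' b' _ e
  exact ⟨h1.1.symm.trans h2.1, h1.2.symm.trans h2.2⟩

lemma norm_eq {r : K} {d : ℕ} (h : IQ K r d) (a b : ℚ) :
    Algebra.norm ℚ ((a : K) + (b : K) * r) = a ^ 2 + d * b ^ 2 := by
  rw [Algebra.norm_eq_matrix_det (bas h), Matrix.det_fin_two]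
  simp only [Algebra.leftMulMatrix_eq_repr_mul]
  have e0 := repr_eq h a b (((a : K) + (b : K) * r) * bas h 0) (by rw [bas0]; ring)
  have e1 := repr_eq h (-(b * d)) a (((a : K) + (b : K) * r) * bas h 1) (by
    rw [bas1]; push_cast
    linear_combination (b : K) * h.sq)
  rw [e0.1, e0.2, e1.1, e1.2]
  ring

lemma trace_eq {r : K} {d : ℕ} (h : IQ K r d) (a b : ℚ) :
    Algebra.trace ℚ K ((a : K) + (b : K) * r) = 2 * a := by
  rw [Algebra.trace_eq_matrix_trace (bas h), Matrix.trace_fin_two]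
  simp only [Algebra.leftMulMatrix_eq_repr_mul]
  have e0 := repr_eq h a b (((a : K) + (b : K) * r) * bas h 0) (by rw [bas0]; ring)
  have e1 := repr_eq h (-(b * d)) a (((a : K) + (b : K) * r) * bas h 1) (by
    rw [bas1]; push_cast
    linear_combination (b : K) * h.sq)
  rw [e0.1, e1.2]
  ring

lemma rat_int {w : ℚ} {d : ℕ} (hd : Squarefree d) {k : ℤ} (h : w ^ 2 * d = k) :
    ∃ v : ℤ, w = v := by
  have h1 : (w.num : ℚ) ^ 2 * d = k * (w.den : ℚ) ^ 2 := by
    rw [← h, ← Rat.mul_den_eq_num w]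
    ring
  have h2 : w.num ^ 2 * (d : ℤ) = k * (w.den : ℤ) ^ 2 := by exact_mod_cast h1
  have h3 : (w.den : ℤ) ^ 2 ∣ w.num ^ 2 * (d : ℤ) := ⟨k, by rw [h2]; ring⟩
  have h4 : IsCoprime ((w.den : ℤ) ^ 2) (w.num ^ 2) := by
    apply IsCoprime.pow
    have := w.reduced
    rw [Int.isCoprime_iff_gcd_eq_one]
    rw [Nat.Coprime, Nat.gcd_comm] at this
    simpa [Int.gcd] using this
  have h5 : (w.den : ℤ) ^ 2 ∣ (d : ℤ) := h4.dvd_of_dvd_mul_left h3
  have h6 : w.den * w.den ∣ d := by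
    have : ((w.den * w.den : ℕ) : ℤ) ∣ (d : ℤ) := by push_cast; rwa [← sq]
    exact_mod_cast this
  have h7 := hd _ h6
  rw [Nat.isUnit_iff] at h7
  refine ⟨w.num, ?_⟩
  conv_lhs => rw [← Rat.num_div_den w, h7]
  simp

/-- integral coordinates of the elements of the ring of integers. -/
lemma int_coord {r : K} {d : ℕ} (h : IQ K r d) (β : 𝓞 K) :
    ∃ u v : ℤ, (2 : K) * (β : K) = (u : K) + (v : K) * r ∧
      4 * Algebra.norm ℤ β = u ^ 2 + d * v ^ 2 := by
  obtain ⟨a, b, hab⟩ := coords h (β : K)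
  have ht : (2 * a : ℚ) = ((Algebra.trace ℤ (𝓞 K) β : ℤ) : ℚ) := by
    rw [Algebra.coe_trace_int, hab, trace_eq h]
  have hn : (a ^ 2 + d * b ^ 2 : ℚ) = ((Algebra.norm ℤ β : ℤ) : ℚ) := by
    rw [Algebra.coe_norm_int, hab, norm_eq h]
  obtain ⟨v, hv⟩ := rat_int (w := 2 * b) h.sf
    (k := 4 * Algebra.norm ℤ β - (Algebra.trace ℤ (𝓞 K) β) ^ 2) (by
      push_cast; rw [← ht, ← hn]; ring)
  refine ⟨Algebra.trace ℤ (𝓞 K) β, v, ?_, ?_⟩
  · have e1 : ((Algebra.trace ℤ (𝓞 K) β : ℤ) : K) = 2 * (a : K) := by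
      have : (((Algebra.trace ℤ (𝓞 K) β : ℤ) : ℚ) : K) = ((2 * a : ℚ) : K) := by rw [ht]
      push_cast at this
      exact this
    have e2 : ((v : ℤ) : K) = 2 * (b : K) := by
      have : (((v : ℤ) : ℚ) : K) = ((2 * b : ℚ) : K) := by rw [hv]
      push_cast at this
      exact this
    rw [e1, e2, hab]; ring
  · have : (4 * (Algebra.norm ℤ β : ℤ) : ℚ) = ((Algebra.trace ℤ (𝓞 K) β : ℤ) : ℚ) ^ 2 + d * (v : ℚ) ^ 2 := by
      rw [← ht, ← hn, ← hv]; ring
    exact_mod_cast this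

end Pool.Agent.TH827.CG
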