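import Pool.Agent.TH827.CG.Asym

/-!
The two final estimates.
-/

namespace Pool.Agent.TH827.CG

open Finset NumberField Filter

/-- the sum of `F d - 1` over the squarefree `d ≤ Y`. -/
noncomputable def SF (F : ℕ → ℕ) (Y : ℕ) : ℝ :=
  ∑ d ∈ (Icc 1 Y).filter Squarefree, ((F d : ℝ) - 1)

lemma term_nonneg {p : ℕ} {F : ℕ → ℕ} (hF : IsCount p F) {d : ℕ} (hd0 : 0 < d)
    (hsf : Squarefree d) : (0 : ℝ) ≤ (F d : ℝ) - 1 := by
  have h := F_pos hF hd0 hsf
  have : (1 : ℝ) ≤ F d := by exact_mod_cast h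
  linarith

lemma SF_nonneg {p : ℕ} {F : ℕ → ℕ} (hF : IsCount p F) (Y : ℕ) : 0 ≤ SF F Y := by
  apply sum_nonneg
  intro d hd
  rw [mem_filter, mem_Icc] at hd
  exact term_nonneg hF (by omega) hd.2

lemma SF_mono {p : ℕ} {F : ℕ → ℕ} (hF : IsCount p F) {Y Y' : ℕ} (h : Y ≤ Y') :
    SF F Y ≤ SF F Y' := by
  apply sum_le_sum_of_subset_of_nonneg
  · exact filter_subset_filter _ (Icc_subset_Icc_right h)
  · intro d hd _
    rw [mem_filter, mem_Icc] at hd
    exact term_nonneg hF (by omega) hd.2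

lemma block_le {p : ℕ} {F : ℕ → ℕ} (hF : IsCount p F) {L Z Y : ℕ} (hZ : 0 < Z) :
    WS F L Z Y ≤ (1 + 2176 * ((L : ℝ) ^ 2 / Real.sqrt Z)) * SF F Y := by
  unfold WS SF
  rw [mul_sum]
  have hZr : 0 < Real.sqrt Z := Real.sqrt_pos.2 (by exact_mod_cast hZ)
  calc ∑ d ∈ (Ioc Z Y).filter Squarefree, (1 + 2176 * ((L : ℝ) ^ 2 / Real.sqrt d)) * ((F d : ℝ) - 1)
      ≤ ∑ d ∈ (Ioc Z Y).filter Squarefree,
          (1 + 2176 * ((L : ℝ) ^ 2 / Real.sqrt Z)) * ((F d : ℝ) - 1) := by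
        apply sum_le_sum
        intro d hd
        rw [mem_filter, mem_Ioc] at hd
        apply mul_le_mul_of_nonneg_right _ (term_nonneg hF (by omega) hd.2)
        have h1 : Real.sqrt Z ≤ Real.sqrt d := by
          apply Real.sqrt_le_sqrt
          exact_mod_cast hd.1.1.le
        have h2 : (L : ℝ) ^ 2 / Real.sqrt d ≤ (L : ℝ) ^ 2 / Real.sqrt Z :=
          div_le_div_of_nonneg_left (by positivity) hZr h1
        linarith
    _ ≤ _ := by
        apply sum_le_sum_of_subset_of_nonneg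
        · intro d hd
          rw [mem_filter, mem_Ioc] at hd
          rw [mem_filter, mem_Icc]
          exact ⟨⟨by omega, hd.1.2⟩, hd.2⟩
        · intro d hd _
          rw [mem_filter, mem_Icc] at hd
          have := term_nonneg hF (by omega) hd.2
          positivity

lemma WS_split {F : ℕ → ℕ} {L Z Y W : ℕ} (h1 : Z ≤ W) (h2 : W ≤ Y) :
    WS F L Z Y = WS F L Z W + WS F L W Y := by
  unfold WS
  rw [← sum_union]
  · rw [← filter_union, Ioc_union_Ioc_eq_Ioc h1 h2]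
  · apply disjoint_filter_filter
    rw [disjoint_left]
    intro a ha hb
    rw [mem_Ioc] at ha hb
    omega

lemma dyadic {p : ℕ} {F : ℕ → ℕ} (hF : IsCount p F) {L Z X : ℕ} {M : ℝ} (hM0 : 0 ≤ M)
    (hZ : 1 ≤ Z)
    (hM : ∀ Y : ℕ, Z ≤ Y → Y ≤ X → (1 + 4352 * ((L : ℝ) ^ 2 / Real.sqrt Y)) * SF F Y ≤ M) :
    ∀ Y : ℕ, Y ≤ X → WS F L Z Y ≤ ((Nat.log 2 Y : ℝ) + 1) * M := by
  intro Y
  induction Y using Nat.strong_induction_on with
  | _ Y ih =>
    intro hYX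
    have key : ∀ W : ℕ, 0 < W → Y ≤ 4 * W → Z ≤ Y → WS F L W Y ≤ M := by
      intro W hW0 hW hZY
      refine (block_le hF hW0).trans (le_trans ?_ (hM Y hZY hYX))
      apply mul_le_mul_of_nonneg_right _ (SF_nonneg hF Y)
      have hWr : 0 < Real.sqrt W := Real.sqrt_pos.2 (by exact_mod_cast hW0)
      have hYr : 0 < Real.sqrt Y := Real.sqrt_pos.2 (by
        have : 0 < Y := by omega
        exact_mod_cast this)
      have h1 : Real.sqrt Y ≤ 2 * Real.sqrt W := by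
        have h4 : (2 : ℝ) = Real.sqrt 4 := by
          rw [show (4 : ℝ) = 2 ^ 2 by norm_num, Real.sqrt_sq (by norm_num)]
        rw [h4, ← Real.sqrt_mul (by norm_num)]
        apply Real.sqrt_le_sqrt
        exact_mod_cast hW
      have h2 : (L : ℝ) ^ 2 / Real.sqrt W ≤ 2 * ((L : ℝ) ^ 2 / Real.sqrt Y) := by
        rw [← mul_div_assoc, div_le_div_iff₀ hWr hYr]
        nlinarith [sq_nonneg (L : ℝ)]
      linarith
    rcases le_or_gt Y Z with hYZ | hYZ
    · have : WS F L Z Y = 0 := by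
        unfold WS
        rw [Ioc_eq_empty (by omega)]
        simp
      rw [this]; positivity
    · have hlog1 : 1 ≤ Nat.log 2 Y := Nat.log_pos (by norm_num) (by omega)
      rcases le_or_gt Z (Y / 2) with hYZ2 | hYZ2
      · rw [WS_split hYZ2 (by omega : Y / 2 ≤ Y)]
        have h1 := ih (Y / 2) (by omega) (by omega)
        have h2 := key (Y / 2) (by omega) (by omega) hYZ.le
        have h3 : (Nat.log 2 (Y / 2) : ℝ) = (Nat.log 2 Y : ℝ) - 1 := by
          rw [Nat.log_div_base, Nat.cast_sub hlog1]; norm_num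
        rw [h3] at h1
        linarith
      · have h2 := key Z (by omega) (by omega) hYZ.le
        have : (0 : ℝ) ≤ (Nat.log 2 Y : ℝ) * M := by positivity
        linarith

/-- `SF (C L^p)` is at least `c' L^(min(2+p/2,3p/4)) / (log L)^4`. -/
lemma lowerL {p : ℕ} (hp5 : 5 ≤ p) : ∃ c : ℝ, 0 < c ∧ ∃ L0 : ℕ, 3 ≤ L0 ∧ ∀ L : ℕ, L0 ≤ L →
    ∀ F : ℕ → ℕ, IsCount p F →
      c * (L : ℝ) ^ (min (2 + (p : ℝ) / 2) (3 * (p : ℝ) / 4)) / (Real.log L) ^ 4 ≤
        SF F (200 * 16 ^ p * L ^ p) := by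
  obtain ⟨c, hc, L0, hL03, hL0⟩ := params hp5
  have hsc : 0 < Real.sqrt c := Real.sqrt_pos.2 hc
  refine ⟨c / (1 + 2176 / Real.sqrt c), by positivity, L0, hL03, fun L hL F hF => ?_⟩
  obtain ⟨Z, hZ64, hZlow, hZ⟩ := hL0 L hL
  have h1 := hZ F hF
  have hL3 : 3 ≤ L := hL03.trans hL
  have hLr : (3 : ℝ) ≤ L := by exact_mod_cast hL3
  have hLr0 : (0 : ℝ) < L := by linarith
  have hlogL : 1 ≤ Real.log L := by
    rw [Real.le_log_iff_exp_le hLr0]
    linarith [Real.exp_one_lt_d9]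
  have hZ0 : 0 < Z := by
    have : 0 < 64 * L ^ 2 := by positivity
    omega
  have hZr : 0 < Real.sqrt Z := Real.sqrt_pos.2 (by exact_mod_cast hZ0)
  have h2 := block_le hF (L := L) (Y := 200 * 16 ^ p * L ^ p) hZ0
  set e : ℝ := min (2 + (p : ℝ) / 2) (3 * (p : ℝ) / 4) with he
  set f : ℝ := max 0 (2 - (p : ℝ) / 4) with hf
  have hef : e + f = 2 + (p : ℝ) / 2 := by
    rw [he, hf]
    rcases le_total (0 : ℝ) (2 - (p : ℝ) / 4) with h | h
    · rw [max_eq_right h, min_eq_right (by linarith)]; ring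
    · rw [max_eq_left h, min_eq_left (by linarith)]; ring
  have hf0 : 0 ≤ f := le_max_left _ _
  have hLf1 : 1 ≤ (L : ℝ) ^ f := Real.one_le_rpow (by linarith) hf0
  have hsq : Real.sqrt c * (L : ℝ) ^ ((p : ℝ) / 4) ≤ Real.log L * Real.sqrt Z := by
    apply le_of_sq_le_sq _ (by positivity)
    rw [mul_pow, mul_pow, Real.sq_sqrt hc.le, Real.sq_sqrt (Nat.cast_nonneg Z)]
    have h3 : ((L : ℝ) ^ ((p : ℝ) / 4)) ^ 2 = (L : ℝ) ^ ((p : ℝ) / 2) := by
      rw [← Real.rpow_natCast, ← Real.rpow_mul hLr0.le]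
      congr 1; push_cast; ring
    rw [h3]
    rw [div_le_iff₀ (by linarith)] at hZlow
    calc c * (L : ℝ) ^ ((p : ℝ) / 2) ≤ Z * Real.log L := hZlow
      _ ≤ Z * (Real.log L) ^ 2 := by
        apply mul_le_mul_of_nonneg_left _ (Nat.cast_nonneg Z)
        nlinarith
      _ = _ := by ring
  have hw : 1 + 2176 * ((L : ℝ) ^ 2 / Real.sqrt Z) ≤
      (1 + 2176 / Real.sqrt c) * (Real.log L * (L : ℝ) ^ f) := by
    have h4 : (L : ℝ) ^ 2 / Real.sqrt Z ≤ Real.log L * (L : ℝ) ^ f / Real.sqrt c := by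
      rw [div_le_div_iff₀ hZr hsc]
      have h5 : (L : ℝ) ^ 2 ≤ (L : ℝ) ^ f * (L : ℝ) ^ ((p : ℝ) / 4) := by
        rw [← Real.rpow_add hLr0, ← Real.rpow_natCast]
        apply Real.rpow_le_rpow_of_exponent_le (by linarith)
        have := le_max_right (0 : ℝ) (2 - (p : ℝ) / 4)
        push_cast
        linarith
      calc (L : ℝ) ^ 2 * Real.sqrt c ≤ ((L : ℝ) ^ f * (L : ℝ) ^ ((p : ℝ) / 4)) * Real.sqrt c := by
            gcongr
        _ = (L : ℝ) ^ f * (Real.sqrt c * (L : ℝ) ^ ((p : ℝ) / 4)) := by ring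
        _ ≤ (L : ℝ) ^ f * (Real.log L * Real.sqrt Z) := by gcongr
        _ = _ := by ring
    have h6 : 1 ≤ Real.log L * (L : ℝ) ^ f := by nlinarith
    calc 1 + 2176 * ((L : ℝ) ^ 2 / Real.sqrt Z)
        ≤ Real.log L * (L : ℝ) ^ f + 2176 * (Real.log L * (L : ℝ) ^ f / Real.sqrt c) := by linarith
      _ = _ := by ring
  have hS := SF_nonneg hF (200 * 16 ^ p * L ^ p)
  have h3 : c * (L : ℝ) ^ (2 + (p : ℝ) / 2) / (Real.log L) ^ 3 ≤
      ((1 + 2176 / Real.sqrt c) * (Real.log L * (L : ℝ) ^ f)) * SF F (200 * 16 ^ p * L ^ p) :=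
    h1.trans (h2.trans (mul_le_mul_of_nonneg_right hw hS))
  rw [← hef, Real.rpow_add hLr0] at h3
  have hK : 0 < 1 + 2176 / Real.sqrt c := by positivity
  rw [div_le_iff₀ (by positivity)] at h3
  rw [div_le_iff₀ (by positivity), div_mul_eq_mul_div, div_le_iff₀ hK]
  have hLf0 : 0 < (L : ℝ) ^ f := by positivity
  have h4 : (L : ℝ) ^ f * (c * (L : ℝ) ^ e) ≤
      (L : ℝ) ^ f * (SF F (200 * 16 ^ p * L ^ p) * Real.log L ^ 4 * (1 + 2176 / Real.sqrt c)) := by
    calc (L : ℝ) ^ f * (c * (L : ℝ) ^ e) = c * ((L : ℝ) ^ e * (L : ℝ) ^ f) := by ring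
      _ ≤ _ := h3
      _ = _ := by ring
  exact le_of_mul_le_mul_left h4 hLf0

/-- for all large `X`. -/
theorem all_large {p : ℕ} (hp5 : 5 ≤ p) {F : ℕ → ℕ} (hF : IsCount p F) :
    ∃ X0 : ℕ, ∀ X : ℕ, X0 ≤ X →
      (X : ℝ) ^ (min (1 / 2 + 2 / (p : ℝ)) (3 / 4)) / (Real.log X) ^ 5 ≤ SF F X := by
  obtain ⟨c, hc, L0, hL03, hL0⟩ := lowerL hp5
  have hp0 : (0 : ℝ) < p := by exact_mod_cast (by omega : 0 < p)
  set C : ℕ := 200 * 16 ^ p with hC
  have hC0 : 0 < C := by positivity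
  have hCr : (0 : ℝ) < C := by exact_mod_cast hC0
  set e : ℝ := min (2 + (p : ℝ) / 2) (3 * (p : ℝ) / 4) with he
  have he0 : 0 < e := by
    rw [he]; apply lt_min <;> positivity
  have hee : min (1 / 2 + 2 / (p : ℝ)) (3 / 4) = e / p := by
    rw [he, ← min_div_div_right hp0.le]
    congr 1
    · field_simp; ring
    · field_simp
  -- the constant
  set K : ℝ := 2 ^ e * (C : ℝ) ^ (e / p) / c with hK
  have hK0 : 0 < K := by positivity
  obtain ⟨N1, hN1⟩ := exists_nat_ge (Real.exp K)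
  refine ⟨max (max N1 3) (C * (L0 + 1) ^ p), fun X hX => ?_⟩
  have hXN1 : N1 ≤ X := (le_max_left _ _).trans ((le_max_left _ _).trans hX)
  have hX3 : 3 ≤ X := (le_max_right _ _).trans ((le_max_left _ _).trans hX)
  have hXC : C * (L0 + 1) ^ p ≤ X := (le_max_right _ _).trans hX
  have hXr3 : (3 : ℝ) ≤ X := by exact_mod_cast hX3
  have hXr0 : (0 : ℝ) < X := by linarith
  have hlogX1 : 1 ≤ Real.log X := by
    rw [Real.le_log_iff_exp_le hXr0]
    linarith [Real.exp_one_lt_d9]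
  have hlogK : K ≤ Real.log X := by
    rw [Real.le_log_iff_exp_le hXr0]
    exact hN1.trans (by exact_mod_cast hXN1)
  set y : ℝ := ((X : ℝ) / C) ^ (1 / (p : ℝ)) with hy
  have hy0 : 0 ≤ y := by positivity
  have hyp : y ^ p = (X : ℝ) / C := by
    rw [hy, ← Real.rpow_natCast, ← Real.rpow_mul (by positivity)]
    rw [one_div_mul_cancel hp0.ne', Real.rpow_one]
  have hyL0 : (L0 : ℝ) + 1 ≤ y := by
    by_contra hcon
    push Not at hcon
    have h1 : y ^ p < ((L0 : ℝ) + 1) ^ p := pow_lt_pow_left₀ hcon hy0 (by omega)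
    rw [hyp, div_lt_iff₀ hCr] at h1
    have h2 : (C : ℝ) * ((L0 : ℝ) + 1) ^ p ≤ X := by exact_mod_cast hXC
    linarith
  set L : ℕ := ⌊y⌋₊ with hL
  have hLy : (L : ℝ) ≤ y := Nat.floor_le hy0
  have hyL : y < L + 1 := Nat.lt_floor_add_one y
  have hL0L : L0 ≤ L := Nat.le_floor (by linarith)
  have hL3 : 3 ≤ L := hL03.trans hL0L
  have hLr3 : (3 : ℝ) ≤ L := by exact_mod_cast hL3
  have hLr0 : (0 : ℝ) < L := by linarith
  have hCLX : C * L ^ p ≤ X := by
    have h1 : (L : ℝ) ^ p ≤ (X : ℝ) / C := by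
      rw [← hyp]; exact pow_le_pow_left₀ hLr0.le hLy p
    rw [le_div_iff₀ hCr] at h1
    have : ((C * L ^ p : ℕ) : ℝ) ≤ X := by push_cast; linarith
    exact_mod_cast this
  have hmain := (hL0 L hL0L F hF).trans (SF_mono hF hCLX)
  refine le_trans ?_ hmain
  rw [hee]
  have hlogLX : Real.log L ≤ Real.log X := by
    apply Real.log_le_log hLr0
    have h1 : L ≤ L ^ p := Nat.le_self_pow (by omega) L
    have h2 : L ^ p ≤ C * L ^ p := Nat.le_mul_of_pos_left _ hC0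
    exact_mod_cast h1.trans (h2.trans hCLX)
  have hlogL : 1 ≤ Real.log L := by
    rw [Real.le_log_iff_exp_le hLr0]
    linarith [Real.exp_one_lt_d9]
  -- X^{e/p} ≤ K c L^e
  have h1 : (X : ℝ) ^ (e / p) ≤ (K * c) * (L : ℝ) ^ e := by
    have h2 : (X : ℝ) = C * y ^ p := by rw [hyp]; field_simp
    have h3 : (X : ℝ) ^ (e / p) = (C : ℝ) ^ (e / p) * y ^ e := by
      rw [h2, Real.mul_rpow hCr.le (by positivity), ← Real.rpow_natCast y p, ← Real.rpow_mul hy0]
      congr 2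
      field_simp
    have h4 : y ≤ 2 * L := by linarith
    have h5 : y ^ e ≤ 2 ^ e * (L : ℝ) ^ e := by
      rw [← Real.mul_rpow (by norm_num) hLr0.le]
      exact Real.rpow_le_rpow hy0 h4 he0.le
    rw [h3, hK]
    calc (C : ℝ) ^ (e / p) * y ^ e ≤ (C : ℝ) ^ (e / p) * (2 ^ e * (L : ℝ) ^ e) := by gcongr
      _ = _ := by field_simp
  rw [div_le_div_iff₀ (by positivity) (by positivity)]
  calc (X : ℝ) ^ (e / p) * Real.log L ^ 4
      ≤ ((K * c) * (L : ℝ) ^ e) * Real.log X ^ 4 := by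
        apply mul_le_mul h1 _ (by positivity) (by positivity)
        exact pow_le_pow_left₀ (by linarith) hlogLX 4
    _ = c * (L : ℝ) ^ e * (K * Real.log X ^ 4) := by ring
    _ ≤ c * (L : ℝ) ^ e * (Real.log X * Real.log X ^ 4) := by gcongr
    _ = _ := by ring

/-- for arbitrarily large `X`. -/
theorem inf_often {p : ℕ} (hp5 : 5 ≤ p) {F : ℕ → ℕ} (hF : IsCount p F) :
    ∀ X0 : ℕ, ∃ X : ℕ, X0 ≤ X ∧
      (X : ℝ) ^ (1 / 2 + 2 / (p : ℝ)) / (Real.log X) ^ 5 ≤ SF F X := by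
  intro X0
  by_contra hcon
  push Not at hcon
  obtain ⟨c, hc, L0, hL03, hL0⟩ := params hp5
  have hp0 : (0 : ℝ) < p := by exact_mod_cast (by omega : 0 < p)
  have hp5r : (5 : ℝ) ≤ p := by exact_mod_cast hp5
  set C : ℕ := 200 * 16 ^ p with hC
  have hC0 : 0 < C := by positivity
  have hC1 : 1 ≤ C := hC0
  have hCr : (0 : ℝ) < C := by exact_mod_cast hC0
  have hCr1 : (1 : ℝ) ≤ C := by exact_mod_cast hC1
  set θ : ℝ := 1 / 2 + 2 / (p : ℝ) with hθ
  have h2p : 0 < 2 / (p : ℝ) := by positivity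
  set K : ℝ := (2 * Real.log C + 2 * p + 1) * ((C : ℝ) ^ θ + 4352 * (C : ℝ) ^ (2 / (p : ℝ))) with hK
  have hlogC : 0 ≤ Real.log C := Real.log_nonneg hCr1
  have hK0 : 0 ≤ K := by positivity
  obtain ⟨N1, hN1⟩ := exists_nat_ge (Real.exp (K / c + 1))
  set L : ℕ := max (max N1 L0) X0 with hLdef
  have hLN1 : N1 ≤ L := (le_max_left _ _).trans (le_max_left _ _)
  have hLL0 : L0 ≤ L := (le_max_right _ _).trans (le_max_left _ _)
  have hLX0 : X0 ≤ L := le_max_right _ _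
  have hL3 : 3 ≤ L := hL03.trans hLL0
  have hLr3 : (3 : ℝ) ≤ L := by exact_mod_cast hL3
  have hLr0 : (0 : ℝ) < L := by linarith
  have hlogL : 1 ≤ Real.log L := by
    rw [Real.le_log_iff_exp_le hLr0]
    linarith [Real.exp_one_lt_d9]
  have hlogLK : K / c + 1 ≤ Real.log L := by
    rw [Real.le_log_iff_exp_le hLr0]
    exact hN1.trans (by exact_mod_cast hLN1)
  obtain ⟨Z, hZ64, hZlow, hZ⟩ := hL0 L hLL0
  have hlow := hZ F hF
  have hLZ : L ≤ Z := by nlinarith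
  set X : ℕ := C * L ^ p with hXdef
  have hX0 : 0 < X := by positivity
  have hXr0 : (0 : ℝ) < X := by exact_mod_cast hX0
  have hXr : (X : ℝ) = C * (L : ℝ) ^ p := by rw [hXdef]; push_cast; rfl
  set M : ℝ := ((X : ℝ) ^ θ + 4352 * ((L : ℝ) ^ 2 * (X : ℝ) ^ (2 / (p : ℝ)))) / (Real.log L) ^ 5
    with hM
  have hM0 : 0 ≤ M := by positivity
  have hblock : ∀ Y : ℕ, Z ≤ Y → Y ≤ X →
      (1 + 4352 * ((L : ℝ) ^ 2 / Real.sqrt Y)) * SF F Y ≤ M := by
    intro Y hZY hYX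
    have hY := hcon Y (hLX0.trans (hLZ.trans hZY))
    have hLY : L ≤ Y := hLZ.trans hZY
    have hYr : (L : ℝ) ≤ Y := by exact_mod_cast hLY
    have hYr0 : (0 : ℝ) < Y := by linarith
    have hYXr : (Y : ℝ) ≤ X := by exact_mod_cast hYX
    have hlogY : Real.log L ≤ Real.log Y := Real.log_le_log hLr0 hYr
    have hsY : 0 < Real.sqrt Y := Real.sqrt_pos.2 hYr0
    have h1 : SF F Y ≤ (Y : ℝ) ^ θ / (Real.log L) ^ 5 := by
      refine hY.le.trans ?_
      apply div_le_div_of_nonneg_left (by positivity) (by positivity)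
      exact pow_le_pow_left₀ (by linarith) hlogY 5
    calc (1 + 4352 * ((L : ℝ) ^ 2 / Real.sqrt Y)) * SF F Y
        ≤ (1 + 4352 * ((L : ℝ) ^ 2 / Real.sqrt Y)) * ((Y : ℝ) ^ θ / (Real.log L) ^ 5) := by
          apply mul_le_mul_of_nonneg_left h1 (by positivity)
      _ = ((Y : ℝ) ^ θ + 4352 * ((L : ℝ) ^ 2 * ((Y : ℝ) ^ θ / Real.sqrt Y))) / (Real.log L) ^ 5 := by
          field_simp
      _ ≤ M := by
          rw [hM]
          have h2 : (Y : ℝ) ^ θ / Real.sqrt Y = (Y : ℝ) ^ (2 / (p : ℝ)) := by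
            rw [Real.sqrt_eq_rpow, ← Real.rpow_sub hYr0, hθ]
            congr 1; ring
          rw [h2]
          gcongr
  have hup := dyadic hF hM0 (by omega) hblock X le_rfl
  -- bound for the number of blocks
  have hlogX : Real.log X = Real.log C + p * Real.log L := by
    rw [hXr, Real.log_mul hCr.ne' (by positivity), Real.log_pow]
  have hnum : (Nat.log 2 X : ℝ) + 1 ≤ (2 * Real.log C + 2 * p + 1) * Real.log L := by
    have h1 : (Nat.log 2 X : ℝ) * Real.log 2 ≤ Real.log X := by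
      rw [← Real.log_pow]
      apply Real.log_le_log (by positivity)
      have := Nat.pow_log_le_self 2 (x := X) (by omega)
      exact_mod_cast this
    have h2 : (1 / 2 : ℝ) ≤ Real.log 2 := by linarith [Real.log_two_gt_d9]
    have h3 : (Nat.log 2 X : ℝ) ≤ 2 * Real.log X := by
      have : (0 : ℝ) ≤ Nat.log 2 X := Nat.cast_nonneg _
      nlinarith
    rw [hlogX] at h3
    nlinarith
  -- bound for M
  have hXθ : (X : ℝ) ^ θ = (C : ℝ) ^ θ * (L : ℝ) ^ (2 + (p : ℝ) / 2) := by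
    rw [hXr, Real.mul_rpow hCr.le (by positivity), ← Real.rpow_natCast (L : ℝ) p,
      ← Real.rpow_mul hLr0.le]
    congr 2
    rw [hθ]; field_simp; ring
  have hX2 : (L : ℝ) ^ 2 * (X : ℝ) ^ (2 / (p : ℝ)) ≤
      (C : ℝ) ^ (2 / (p : ℝ)) * (L : ℝ) ^ (2 + (p : ℝ) / 2) := by
    rw [hXr, Real.mul_rpow hCr.le (by positivity), ← Real.rpow_natCast (L : ℝ) p,
      ← Real.rpow_mul hLr0.le, ← Real.rpow_natCast (L : ℝ) 2]
    have h1 : (p : ℝ) * (2 / (p : ℝ)) = 2 := by field_simp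
    rw [h1]
    calc (L : ℝ) ^ ((2 : ℕ) : ℝ) * ((C : ℝ) ^ (2 / (p : ℝ)) * (L : ℝ) ^ (2 : ℝ))
        = (C : ℝ) ^ (2 / (p : ℝ)) * ((L : ℝ) ^ ((2 : ℕ) : ℝ) * (L : ℝ) ^ (2 : ℝ)) := by ring
      _ ≤ _ := by
        rw [← Real.rpow_add hLr0]
        apply mul_le_mul_of_nonneg_left _ (by positivity)
        apply Real.rpow_le_rpow_of_exponent_le (by linarith)
        push_cast; linarith
  set W : ℝ := (L : ℝ) ^ (2 + (p : ℝ) / 2) with hW
  have hW0 : 0 < W := by positivity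
  have hMb : M ≤ ((C : ℝ) ^ θ + 4352 * (C : ℝ) ^ (2 / (p : ℝ))) * W / (Real.log L) ^ 5 := by
    rw [hM, hXθ]
    apply div_le_div_of_nonneg_right _ (by positivity)
    linarith
  have hfin : c * W / (Real.log L) ^ 3 ≤ K * W / (Real.log L) ^ 4 := by
    calc c * W / (Real.log L) ^ 3 ≤ ((Nat.log 2 X : ℝ) + 1) * M := hlow.trans hup
      _ ≤ ((2 * Real.log C + 2 * p + 1) * Real.log L) *
          (((C : ℝ) ^ θ + 4352 * (C : ℝ) ^ (2 / (p : ℝ))) * W / (Real.log L) ^ 5) := by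
        apply mul_le_mul hnum hMb hM0 (by positivity)
      _ = K * W / (Real.log L) ^ 4 := by
        rw [hK]; field_simp
  rw [div_le_div_iff₀ (by positivity) (by positivity)] at hfin
  have h1 : c * Real.log L * (W * Real.log L ^ 3) ≤ K * (W * Real.log L ^ 3) := by
    calc c * Real.log L * (W * Real.log L ^ 3) = c * W * Real.log L ^ 4 := by ring
      _ ≤ K * W * Real.log L ^ 3 := hfin
      _ = _ := by ring
  have h2 := le_of_mul_le_mul_right h1 (by positivity)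
  have h3 : K + c ≤ c * Real.log L := by
    have : c * (K / c + 1) ≤ c * Real.log L := mul_le_mul_of_nonneg_left hlogLK hc.le
    have h4 : c * (K / c + 1) = K + c := by field_simp
    linarith
  linarith

end Pool.Agent.TH827.CG
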