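import Pool.Agent.TH827.CG.Field

/-!
Ideals of norm `m` from the solutions of `n^2 + s^2 d = m^p`.
-/

namespace Pool.Agent.TH827.CG

open NumberField Module Ideal nonZeroDivisors

variable {K : Type} [Field K] [NumberField K] {r : K} {d : ℕ}

/-- `r` as an element of the ring of integers. -/
noncomputable def rI (h : IQ K r d) : 𝓞 K := ⟨r, by
  rw [mem_integralClosure_iff]
  refine ⟨Polynomial.X ^ 2 + Polynomial.C (d : ℤ), ?_, ?_⟩
  · exact Polynomial.monic_X_pow_add_C _ (by norm_num)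
  · simp [h.sq]⟩

lemma rI_coe (h : IQ K r d) : algebraMap (𝓞 K) K (rI h) = r := rfl

lemma rI_sq (h : IQ K r d) : (rI h) ^ 2 = -(d : 𝓞 K) := by
  apply RingOfIntegers.coe_injective
  rw [map_pow, rI_coe, h.sq, map_neg, map_natCast]

/-- `n + s r`. -/
noncomputable def al (h : IQ K r d) (n s : ℤ) : 𝓞 K := (n : 𝓞 K) + (s : 𝓞 K) * rI h

lemma al_coe (h : IQ K r d) (n s : ℤ) :
    ((al h n s : 𝓞 K) : K) = ((n : ℚ) : K) + ((s : ℚ) : K) * r := by
  show algebraMap (𝓞 K) K (al h n s) = _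
  unfold al
  rw [map_add, map_mul, rI_coe, map_intCast, map_intCast]
  push_cast; rfl

lemma norm_al (h : IQ K r d) (n s : ℤ) :
    Algebra.norm ℤ (al h n s) = n ^ 2 + d * s ^ 2 := by
  have : ((Algebra.norm ℤ (al h n s) : ℤ) : ℚ) = ((n ^ 2 + d * s ^ 2 : ℤ) : ℚ) := by
    rw [Algebra.coe_norm_int, al_coe, norm_eq h]; push_cast; ring
  exact_mod_cast this

lemma trace_al (h : IQ K r d) (n s : ℤ) :
    Algebra.trace ℤ (𝓞 K) (al h n s) = 2 * n := by
  have : ((Algebra.trace ℤ (𝓞 K) (al h n s) : ℤ) : ℚ) = ((2 * n : ℤ) : ℚ) := by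
    rw [Algebra.coe_trace_int, al_coe, trace_eq h]; push_cast; ring
  exact_mod_cast this

lemma al_mul (h : IQ K r d) (n s : ℤ) :
    al h n s * al h n (-s) = ((n ^ 2 + s ^ 2 * d : ℤ) : 𝓞 K) := by
  unfold al; push_cast
  linear_combination (-(s : 𝓞 K) ^ 2) * rI_sq h

lemma ideal_pow_inj {I J : Ideal (𝓞 K)} {p : ℕ} (hp : p ≠ 0) (h : I ^ p = J ^ p) : I = J :=
  dvd_antisymm ((UniqueFactorizationMonoid.pow_dvd_pow_iff_dvd hp).1 h.dvd)
    ((UniqueFactorizationMonoid.pow_dvd_pow_iff_dvd hp).1 h.symm.dvd)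

/-- a solution of the norm equation. -/
structure Sol (p d m n s : ℕ) : Prop where
  odd : Odd m
  one : 1 < m
  npos : 0 < n
  spos : 0 < s
  cop : Nat.Coprime n m
  eq : n ^ 2 + s ^ 2 * d = m ^ p

/-- the data of the two ideals. -/
structure Dat (h : IQ K r d) (p m n s : ℕ) (I J : Ideal (𝓞 K)) : Prop where
  hI : I ^ p = Ideal.span {al h n s}
  hJ : J ^ p = Ideal.span {al h n (-s)}
  hIJ : I * J = Ideal.span {(m : 𝓞 K)}
  cop : IsCoprime I J
  nI : absNorm I = m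
  nJ : absNorm J = m

lemma exists_dat (h : IQ K r d) {p m n s : ℕ} (hp : p ≠ 0) (hs : Sol p d m n s) :
    ∃ I J : Ideal (𝓞 K), Dat h p m n s I J := by
  have hmul : al h n s * al h n (-s) = ((m : 𝓞 K)) ^ p := by
    rw [al_mul]
    have : ((n : ℤ) ^ 2 + (s : ℤ) ^ 2 * d) = ((m ^ p : ℕ) : ℤ) := by
      rw [← hs.eq]; push_cast; ring
    rw [this]; push_cast; rfl
  have hcop : IsCoprime (al h n s) (al h n (-s)) := by
    have h1 : Nat.Coprime (2 * n) (m ^ p) := by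
      apply Nat.Coprime.pow_right
      apply Nat.Coprime.mul_left
      · exact (Nat.coprime_two_left).2 hs.odd
      · exact hs.cop
    have h2 : IsCoprime ((2 * n : ℕ) : ℤ) ((m ^ p : ℕ) : ℤ) := Nat.isCoprime_iff_coprime.2 h1
    obtain ⟨x, y, hxy⟩ := h2
    refine ⟨(x : 𝓞 K) + (y : 𝓞 K) * al h n (-s), (x : 𝓞 K), ?_⟩
    have h3 : ((x * ((2 * n : ℕ) : ℤ) + y * ((m ^ p : ℕ) : ℤ) : ℤ) : 𝓞 K) = 1 := by
      rw [hxy]; simp
    push_cast at h3
    have h4 : al h n s + al h n (-s) = 2 * (n : 𝓞 K) := by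
      unfold al; push_cast; ring
    linear_combination h3 + (y : 𝓞 K) * hmul + (x : 𝓞 K) * h4
  have hcopI : IsCoprime (Ideal.span {al h n s}) (Ideal.span {al h n (-s)}) :=
    (Ideal.isCoprime_span_singleton_iff _ _).2 hcop
  have hprod : Ideal.span {al h n s} * Ideal.span {al h n (-s)} = (Ideal.span {(m : 𝓞 K)}) ^ p := by
    rw [Ideal.span_singleton_mul_span_singleton, Ideal.span_singleton_pow, hmul]
  obtain ⟨I, hI⟩ := exists_eq_pow_of_mul_eq_pow_of_coprime hcopI hprod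
  obtain ⟨J, hJ⟩ := exists_eq_pow_of_mul_eq_pow_of_coprime hcopI.symm
    (by rw [mul_comm]; exact hprod)
  refine ⟨I, J, hI.symm, hJ.symm, ?_, ?_, ?_, ?_⟩
  · apply ideal_pow_inj hp
    rw [mul_pow, ← hI, ← hJ, hprod]
  · rw [hI, hJ] at hcopI
    exact (IsCoprime.pow_iff (Nat.pos_of_ne_zero hp) (Nat.pos_of_ne_zero hp)).1 hcopI
  · have : absNorm I ^ p = m ^ p := by
      rw [← map_pow, ← hI, absNorm_span_singleton, norm_al, ← hs.eq]
      have : (n : ℤ) ^ 2 + d * (s : ℤ) ^ 2 = ((n ^ 2 + s ^ 2 * d : ℕ) : ℤ) := by push_cast; ring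
      rw [this, Int.natAbs_natCast]
    exact Nat.pow_left_injective hp this
  · have : absNorm J ^ p = m ^ p := by
      rw [← map_pow, ← hJ, absNorm_span_singleton, norm_al, ← hs.eq]
      have : (n : ℤ) ^ 2 + d * (-(s : ℤ)) ^ 2 = ((n ^ 2 + s ^ 2 * d : ℕ) : ℤ) := by push_cast; ring
      rw [this, Int.natAbs_natCast]
    exact Nat.pow_left_injective hp this

end Pool.Agent.TH827.CG
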