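import Pool.Agent.Helper112.Sel0

/-! Primes in `(L, 4 L]`. -/

namespace Pool.Agent.TH827.CG

open Finset

/-- the primes in `(L, 4 L]`. -/
def PR (L : ℕ) : Finset ℕ := (Ioc L (4 * L)).filter Nat.Prime

lemma mem_PR {L q : ℕ} : q ∈ PR L ↔ (L < q ∧ q ≤ 4 * L) ∧ q.Prime := by
  simp [PR]

theorem PR_card : ∃ N0 : ℕ, 4 ≤ N0 ∧ ∀ L : ℕ, N0 ≤ L → (L : ℝ) ≤ 2 * Real.log L * ((PR L).card : ℝ) := by
  obtain ⟨N0, hN0⟩ := Helper112.theta_lower
  refine ⟨max N0 4, le_max_right _ _, fun L hL => ?_⟩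
  have hL4 : 4 ≤ L := (le_max_right _ _).trans hL
  have hL0 : N0 ≤ 4 * L := by have := (le_max_left N0 4).trans hL; omega
  have hLr : (4 : ℝ) ≤ L := by exact_mod_cast hL4
  have h1 := hN0 (4 * L) hL0
  have h2 : Chebyshev.theta (L : ℝ) ≤ Real.log 4 * L := Chebyshev.theta_le_log4_mul_x (by positivity)
  have hl4 : Real.log 4 ≤ 1.39 := by
    have : Real.log 4 = 2 * Real.log 2 := by
      rw [show (4 : ℝ) = 2 ^ 2 by norm_num, Real.log_pow]; norm_num
    rw [this]; linarith [Real.log_two_lt_d9]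
  have h3 : Chebyshev.theta ((4 * L : ℕ) : ℝ) = Chebyshev.theta (L : ℝ) +
      ∑ q ∈ PR L, Real.log q := by
    unfold Chebyshev.theta PR
    rw [Nat.floor_natCast, Nat.floor_natCast]
    rw [← Finset.sum_union]
    · apply Finset.sum_congr _ (fun _ _ => rfl)
      ext q
      simp only [mem_filter, mem_Ioc, mem_union]
      constructor
      · rintro ⟨⟨a, b⟩, c⟩
        by_cases hq : q ≤ L
        · exact Or.inl ⟨⟨a, hq⟩, c⟩
        · exact Or.inr ⟨⟨by omega, b⟩, c⟩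
      · rintro (⟨⟨a, b⟩, c⟩ | ⟨⟨a, b⟩, c⟩)
        · exact ⟨⟨a, by omega⟩, c⟩
        · exact ⟨⟨by omega, b⟩, c⟩
    · rw [Finset.disjoint_left]
      intro q h1 h2
      simp only [mem_filter, mem_Ioc] at h1 h2
      omega
  have h4 : ∑ q ∈ PR L, Real.log q ≤ ((PR L).card : ℝ) * (2 * Real.log L) := by
    rw [← nsmul_eq_mul]
    apply Finset.sum_le_card_nsmul
    intro q hq
    rw [mem_PR] at hq
    have hq0 : (0 : ℝ) < q := by exact_mod_cast hq.2.pos
    have hq4 : (q : ℝ) ≤ 4 * L := by exact_mod_cast hq.1.2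
    calc Real.log q ≤ Real.log (4 * L) := Real.log_le_log hq0 hq4
      _ = Real.log 4 + Real.log L := Real.log_mul (by norm_num) (by positivity)
      _ ≤ 2 * Real.log L := by
        have := Real.log_le_log (by norm_num) hLr
        linarith
  have hlog : 0 ≤ Real.log ((4 * L : ℕ) : ℝ) := by
    apply Real.log_nonneg; push_cast; linarith
  have h5 : ((4 * L : ℕ) : ℝ) = 4 * L := by push_cast; ring
  rw [h5] at h1 h3 hlog
  nlinarith

end Pool.Agent.TH827.CG
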