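import Pool.Agent.TH827.CG.Primes

/-!
Many pairs `(a, b)` of primes with `a b` a square modulo `t`, and small square roots of
`(a b)^p` modulo `t^2`.
-/

namespace Pool.Agent.TH827.CG

open Finset

lemma hensel {t : ℕ} (ht : t.Prime) (ht2 : t ≠ 2) {m : ℤ} (hm : ¬ (t : ℤ) ∣ m)
    (hsq : IsSquare ((m : ℤ) : ZMod t)) : ∃ s : ℤ, (t : ℤ) ^ 2 ∣ m - s ^ 2 := by
  have : Fact t.Prime := ⟨ht⟩
  obtain ⟨z, hz⟩ := hsq
  obtain ⟨s0, rfl⟩ := ZMod.intCast_surjective z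
  have h1 : (t : ℤ) ∣ m - s0 ^ 2 := by
    rw [← ZMod.intCast_zmod_eq_zero_iff_dvd]
    push_cast
    rw [hz]; ring
  obtain ⟨e, he⟩ := h1
  have hs0 : ¬ (t : ℤ) ∣ s0 := by
    intro h
    apply hm
    have : (t : ℤ) ∣ m - s0 ^ 2 + s0 ^ 2 := dvd_add ⟨e, he⟩ (dvd_pow h two_ne_zero)
    simpa using this
  have htp : Prime (t : ℤ) := Nat.prime_iff_prime_int.1 ht
  have hc : IsCoprime (2 * s0) (t : ℤ) := by
    apply IsCoprime.symm
    rw [htp.coprime_iff_not_dvd]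
    intro h
    rcases htp.dvd_or_dvd h with h2 | h2
    · have : t ∣ 2 := by exact_mod_cast h2
      exact ht2 ((Nat.prime_dvd_prime_iff_eq ht Nat.prime_two).1 this)
    · exact hs0 h2
  obtain ⟨x, y, hxy⟩ := hc
  refine ⟨s0 + t * (e * x), e * y - (e * x) ^ 2, ?_⟩
  have : m = s0 ^ 2 + t * e := by linarith
  rw [this]
  linear_combination (-(t : ℤ) * e) * hxy

lemma exists_n {t a b : ℕ} (ht : t.Prime) (ht2 : t ≠ 2) (ha : a.Prime) (hb : b.Prime)
    (ha2 : a ≠ 2) (hb2 : b ≠ 2) (hta : a ≠ t) (htb : b ≠ t)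
    (hsq : IsSquare ((a * b : ℕ) : ZMod t)) (p : ℕ) :
    ∃ n : ℕ, 0 < n ∧ n < 3 * t ^ 2 ∧ n.Coprime (a * b) ∧
      (t : ℤ) ^ 2 ∣ ((a * b : ℕ) : ℤ) ^ p - (n : ℤ) ^ 2 := by
  have htab : ¬ t ∣ a * b := by
    intro h
    rcases (Nat.Prime.dvd_mul ht).1 h with h | h
    · exact hta ((Nat.prime_dvd_prime_iff_eq ht ha).1 h).symm
    · exact htb ((Nat.prime_dvd_prime_iff_eq ht hb).1 h).symm
  have htab' : ¬ (t : ℤ) ∣ ((a * b : ℕ) : ℤ) := by exact_mod_cast htab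
  obtain ⟨s, hs⟩ := hensel ht ht2 htab' (by exact_mod_cast hsq)
  have ht0 : (0 : ℤ) < (t : ℤ) ^ 2 := by have := ht.pos; positivity
  have htp : Prime (t : ℤ) := Nat.prime_iff_prime_int.1 ht
  have hts : ¬ (t : ℤ) ∣ s := by
    intro h
    apply htab'
    have h1 : (t : ℤ) ∣ ((a * b : ℕ) : ℤ) - s ^ 2 := dvd_trans (dvd_pow_self _ two_ne_zero) hs
    have : (t : ℤ) ∣ ((a * b : ℕ) : ℤ) - s ^ 2 + s ^ 2 := dvd_add h1 (dvd_pow h two_ne_zero)
    simpa using this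
  -- the least residue
  set n0 : ℤ := (s ^ p) % (t : ℤ) ^ 2 with hn0
  have hn0nn : 0 ≤ n0 := Int.emod_nonneg _ ht0.ne'
  have hn0lt : n0 < (t : ℤ) ^ 2 := Int.emod_lt_of_pos _ ht0
  have hn0dv : (t : ℤ) ^ 2 ∣ s ^ p - n0 := Int.dvd_self_sub_emod
  have hn0t : ¬ (t : ℤ) ∣ n0 := by
    intro h
    apply hts
    have h1 : (t : ℤ) ∣ s ^ p - n0 := dvd_trans (dvd_pow_self _ two_ne_zero) hn0dv
    have h2 : (t : ℤ) ∣ s ^ p - n0 + n0 := dvd_add h1 h
    rw [sub_add_cancel] at h2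
    exact htp.dvd_of_dvd_pow h2
  have hn0pos : 0 < n0 := by
    rcases hn0nn.lt_or_eq with h | h
    · exact h
    · exfalso; apply hn0t; rw [← h]; exact dvd_zero _
  obtain ⟨k, hk⟩ := Int.eq_ofNat_of_zero_le hn0nn
  have hkpos : 0 < k := by omega
  have hklt : k < t ^ 2 := by
    have : (k : ℤ) < (t : ℤ) ^ 2 := by rw [← hk]; exact hn0lt
    exact_mod_cast this
  have hdv : ∀ j : ℕ, (t : ℤ) ^ 2 ∣ ((a * b : ℕ) : ℤ) ^ p - ((k + j * t ^ 2 : ℕ) : ℤ) ^ 2 := by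
    intro j
    have h1 : (t : ℤ) ^ 2 ∣ ((a * b : ℕ) : ℤ) ^ p - (s ^ 2) ^ p := hs.trans (sub_dvd_pow_sub_pow _ _ p)
    have h2 : (t : ℤ) ^ 2 ∣ s ^ p - ((k + j * t ^ 2 : ℕ) : ℤ) := by
      have : s ^ p - ((k + j * t ^ 2 : ℕ) : ℤ) = (s ^ p - n0) - j * (t : ℤ) ^ 2 := by
        rw [hk]; push_cast; ring
      rw [this]
      exact dvd_sub hn0dv (Dvd.intro_left _ rfl)
    have h3 : (t : ℤ) ^ 2 ∣ (s ^ p) ^ 2 - ((k + j * t ^ 2 : ℕ) : ℤ) ^ 2 :=
      h2.trans (sub_dvd_pow_sub_pow _ _ 2)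
    have : ((a * b : ℕ) : ℤ) ^ p - ((k + j * t ^ 2 : ℕ) : ℤ) ^ 2 =
      (((a * b : ℕ) : ℤ) ^ p - (s ^ 2) ^ p) + ((s ^ p) ^ 2 - ((k + j * t ^ 2 : ℕ) : ℤ) ^ 2) := by ring
    rw [this]
    exact dvd_add h1 h3
  -- a prime divides at most one of the three
  have hone : ∀ q : ℕ, q.Prime → q ≠ 2 → q ≠ t → ∀ i j : ℕ, i < j → j ≤ 2 →
      q ∣ k + i * t ^ 2 → q ∣ k + j * t ^ 2 → False := by
    intro q hq hq2 hqt i j hij hj h1 h2
    have h3 : q ∣ (k + j * t ^ 2) - (k + i * t ^ 2) := Nat.dvd_sub h2 h1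
    have h4 : (k + j * t ^ 2) - (k + i * t ^ 2) = (j - i) * t ^ 2 := by
      rw [Nat.sub_mul]; omega
    rw [h4] at h3
    rcases (Nat.Prime.dvd_mul hq).1 h3 with h5 | h5
    · have h6 : j - i ≤ 2 := by omega
      have h7 := Nat.le_of_dvd (by omega) h5
      have := hq.two_le
      omega
    · have h6 := hq.dvd_of_dvd_pow h5
      exact hqt ((Nat.prime_dvd_prime_iff_eq hq ht).1 h6)
  have hex : ∃ j : ℕ, j ≤ 2 ∧ ¬ a ∣ k + j * t ^ 2 ∧ ¬ b ∣ k + j * t ^ 2 := by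
    by_contra hcon
    push Not at hcon
    have c0 := hcon 0 (by norm_num)
    have c1 := hcon 1 (by norm_num)
    have c2 := hcon 2 (by norm_num)
    have a01 := hone a ha ha2 hta 0 1 (by norm_num) (by norm_num)
    have a02 := hone a ha ha2 hta 0 2 (by norm_num) (by norm_num)
    have a12 := hone a ha ha2 hta 1 2 (by norm_num) (by norm_num)
    have b01 := hone b hb hb2 htb 0 1 (by norm_num) (by norm_num)
    have b02 := hone b hb hb2 htb 0 2 (by norm_num) (by norm_num)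
    have b12 := hone b hb hb2 htb 1 2 (by norm_num) (by norm_num)
    tauto
  obtain ⟨j, hj, hja, hjb⟩ := hex
  refine ⟨k + j * t ^ 2, by omega, ?_, ?_, hdv j⟩
  · have : j * t ^ 2 ≤ 2 * t ^ 2 := Nat.mul_le_mul_right _ hj
    omega
  · apply Nat.Coprime.mul_right
    · exact ((Nat.Prime.coprime_iff_not_dvd ha).2 hja).symm
    · exact ((Nat.Prime.coprime_iff_not_dvd hb).2 hjb).symm

open Classical in
/-- the pairs of distinct elements whose product is a square modulo `t`. -/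
noncomputable def SP (t : ℕ) (A : Finset ℕ) : Finset (ℕ × ℕ) :=
  (A ×ˢ A).filter (fun x => x.1 ≠ x.2 ∧ IsSquare ((x.1 * x.2 : ℕ) : ZMod t))

lemma mem_SP {t : ℕ} {A : Finset ℕ} {x : ℕ × ℕ} :
    x ∈ SP t A ↔ (x.1 ∈ A ∧ x.2 ∈ A) ∧ x.1 ≠ x.2 ∧ IsSquare ((x.1 * x.2 : ℕ) : ZMod t) := by
  classical
  unfold SP
  simp only [mem_filter, mem_product]

/-- among the pairs from a set of units, at least half have a square product. -/
lemma pairs_count {t : ℕ} (ht : t.Prime) (A : Finset ℕ) (hA : ∀ a ∈ A, ¬ t ∣ a) :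
    A.card ^ 2 ≤ 2 * (SP t A).card + 2 * A.card := by
  classical
  have : Fact t.Prime := ⟨ht⟩
  set A1 := A.filter (fun a => IsSquare ((a : ℕ) : ZMod t)) with hA1
  set A2 := A.filter (fun a => ¬ IsSquare ((a : ℕ) : ZMod t)) with hA2
  have hsum : A1.card + A2.card = A.card := Finset.card_filter_add_card_filter_not _
  set P := SP t A with hP
  have hnz : ∀ a ∈ A, ((a : ℕ) : ZMod t) ≠ 0 := by
    intro a ha h
    rw [ZMod.natCast_eq_zero_iff] at h
    exact hA a ha h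
  have hsub : (A1 ×ˢ A1) ∪ (A2 ×ˢ A2) ⊆ P ∪ A.image (fun a => (a, a)) := by
    rintro ⟨a, b⟩ hx
    rw [mem_union, mem_product, mem_product] at hx
    rw [mem_union, mem_image]
    have haA : a ∈ A := by
      rcases hx with h | h
      · exact (mem_filter.1 h.1).1
      · exact (mem_filter.1 h.1).1
    have hbA : b ∈ A := by
      rcases hx with h | h
      · exact (mem_filter.1 h.2).1
      · exact (mem_filter.1 h.2).1
    by_cases hab : a = b
    · right; exact ⟨a, haA, by rw [hab]⟩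
    · left
      rw [hP, mem_SP]
      refine ⟨⟨haA, hbA⟩, hab, ?_⟩
      push_cast
      rcases hx with h | h
      · exact (mem_filter.1 h.1).2.mul (mem_filter.1 h.2).2
      · have h1 := (mem_filter.1 h.1).2
        have h2 := (mem_filter.1 h.2).2
        have e1 := (quadraticChar_neg_one_iff_not_isSquare (F := ZMod t)).2 h1
        have e2 := (quadraticChar_neg_one_iff_not_isSquare (F := ZMod t)).2 h2
        rw [← quadraticChar_one_iff_isSquare (mul_ne_zero (hnz a haA) (hnz b hbA)), map_mul, e1, e2]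
        norm_num
  have hdisj : Disjoint (A1 ×ˢ A1) (A2 ×ˢ A2) := by
    rw [Finset.disjoint_left]
    rintro ⟨a, b⟩ h1 h2
    rw [mem_product] at h1 h2
    exact (mem_filter.1 h2.1).2 (mem_filter.1 h1.1).2
  have h1 := card_le_card hsub
  rw [card_union_of_disjoint hdisj, card_product, card_product] at h1
  have h2 := h1.trans (card_union_le _ _)
  have h3 : (A.image (fun a => (a, a))).card ≤ A.card := card_image_le
  have h4 : A.card ^ 2 ≤ 2 * (A1.card * A1.card + A2.card * A2.card) := by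
    rw [← hsum]
    nlinarith [sq_nonneg ((A1.card : ℤ) - A2.card)]
  omega

/-- at most two solutions of `x^2 = c` modulo a prime. -/
lemma roots_le {a : ℕ} (ha : a.Prime) (c : ZMod a) :
    haveI : Fact a.Prime := ⟨ha⟩
    (Finset.univ.filter (fun x : ZMod a => x ^ 2 = c)).card ≤ 2 := by
  classical
  haveI : Fact a.Prime := ⟨ha⟩
  rcases (Finset.univ.filter (fun x : ZMod a => x ^ 2 = c)).eq_empty_or_nonempty with h | ⟨x0, hx0⟩
  · show (Finset.univ.filter (fun x : ZMod a => x ^ 2 = c)).card ≤ 2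
    rw [h]; simp
  · have hx := (mem_filter.1 hx0).2
    have hsub : (Finset.univ.filter (fun x : ZMod a => x ^ 2 = c)) ⊆ {x0, -x0} := by
      intro y hy
      have hy' := (mem_filter.1 hy).2
      rw [mem_insert, mem_singleton]
      exact sq_eq_sq_iff_eq_or_eq_neg.1 (by rw [hy', hx])
    exact (card_le_card hsub).trans card_le_two

end Pool.Agent.TH827.CG
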