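import Pool.Agent.TH827.CG.Roots
import Pool.Agent.TH827.CG.Fiber

/-!
At most four solutions of `n^2 + s^2 d = (a b)^p` for given `d`, `a`, `b`.
-/

namespace Pool.Agent.TH827.CG

open Finset

lemma not_dvd_s {a p d m n s : ℕ} (ha : a.Prime) (hp : p ≠ 0) (ham : a ∣ m) (h : Sol p d m n s) :
    ¬ a ∣ s ∧ ¬ a ∣ n := by
  have h1 : ¬ a ∣ n := by
    intro h2
    have := Nat.dvd_gcd h2 ham
    rw [h.cop] at this
    exact ha.one_lt.ne' (Nat.dvd_one.1 this)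
  refine ⟨fun h2 => h1 ?_, h1⟩
  have h3 : a ∣ n ^ 2 + s ^ 2 * d := by rw [h.eq]; exact dvd_pow ham hp
  have h4 : a ∣ s ^ 2 * d := Dvd.dvd.mul_right (dvd_pow h2 two_ne_zero) d
  exact ha.dvd_of_dvd_pow ((Nat.dvd_add_left h4).1 h3)

lemma two_sol {a b p d n1 s1 n2 s2 : ℕ} (ha : a.Prime) (hb : b.Prime) (hab : a ≠ b) (hp : p ≠ 0)
    (hd : 0 < d) (h1 : Sol p d (a * b) n1 s1) (h2 : Sol p d (a * b) n2 s2)
    (da : (a : ℤ) ∣ (n1 : ℤ) * s2 - n2 * s1) (db : (b : ℤ) ∣ (n1 : ℤ) * s2 - n2 * s1) :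
    n1 = n2 ∧ s1 = s2 := by
  have e1 : (n1 : ℤ) ^ 2 + (s1 : ℤ) ^ 2 * d = ((a : ℤ) * b) ^ p := by exact_mod_cast h1.eq
  have e2 : (n2 : ℤ) ^ 2 + (s2 : ℤ) ^ 2 * d = ((a : ℤ) * b) ^ p := by exact_mod_cast h2.eq
  set x : ℤ := (n1 : ℤ) * s2 - n2 * s1 with hx
  set y : ℤ := (n1 : ℤ) * s2 + n2 * s1 with hy
  have hprod : x * y = ((a : ℤ) * b) ^ p * ((s2 : ℤ) ^ 2 - (s1 : ℤ) ^ 2) := by
    rw [hx, hy]
    linear_combination (s2 : ℤ) ^ 2 * e1 - (s1 : ℤ) ^ 2 * e2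
  have key : ∀ q : ℕ, q.Prime → q ∣ a * b → (q : ℤ) ∣ x → (q : ℤ) ^ p ∣ ((a : ℤ) * b) ^ p →
      (q : ℤ) ^ p ∣ x := by
    intro q hq hqm hqx hqp
    have hqi : Prime (q : ℤ) := Nat.prime_iff_prime_int.1 hq
    have hny : ¬ (q : ℤ) ∣ y := by
      intro hqy
      have h3 : (q : ℤ) ∣ 2 * ((n1 : ℤ) * s2) := by
        have : 2 * ((n1 : ℤ) * s2) = x + y := by rw [hx, hy]; ring
        rw [this]; exact dvd_add hqx hqy
      rcases hqi.dvd_or_dvd h3 with h4 | h4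
      · have h5 : q ∣ 2 := by exact_mod_cast h4
        have h6 := (Nat.prime_dvd_prime_iff_eq hq Nat.prime_two).1 h5
        rw [h6] at hqm
        have := h1.odd
        rw [← Nat.not_even_iff_odd] at this
        exact this (even_iff_two_dvd.2 hqm)
      · rcases hqi.dvd_or_dvd h4 with h5 | h5
        · exact (not_dvd_s hq hp hqm h1).2 (by exact_mod_cast h5)
        · exact (not_dvd_s hq hp hqm h2).1 (by exact_mod_cast h5)
    have hc : IsCoprime ((q : ℤ) ^ p) y := by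
      apply IsCoprime.pow_left
      rw [hqi.coprime_iff_not_dvd]
      exact hny
    apply hc.dvd_of_dvd_mul_right
    rw [hprod]
    exact hqp.mul_right _
  have k1 := key a ha (dvd_mul_right a b) da (by rw [mul_pow]; exact dvd_mul_right _ _)
  have k2 := key b hb (dvd_mul_left b a) db (by rw [mul_pow]; exact dvd_mul_left _ _)
  have hcab : IsCoprime ((a : ℤ) ^ p) ((b : ℤ) ^ p) := by
    apply IsCoprime.pow
    exact Nat.isCoprime_iff_coprime.2 ((Nat.coprime_primes ha hb).2 hab)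
  have k3 : ((a : ℤ) * b) ^ p ∣ x := by
    rw [mul_pow]; exact hcab.mul_dvd k1 k2
  have hid : ((n1 : ℤ) * n2 + d * s1 * s2) ^ 2 + d * x ^ 2 = (((a : ℤ) * b) ^ p) ^ 2 := by
    have : (((a : ℤ) * b) ^ p) ^ 2 = ((n1 : ℤ) ^ 2 + (s1 : ℤ) ^ 2 * d) * ((n2 : ℤ) ^ 2 + (s2 : ℤ) ^ 2 * d) := by
      rw [e1, e2]; ring
    rw [this, hx]; ring
  have hn1 : (0 : ℤ) < n1 := by exact_mod_cast h1.npos
  have hn2 : (0 : ℤ) < n2 := by exact_mod_cast h2.npos
  have hs1 : (0 : ℤ) < s1 := by exact_mod_cast h1.spos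
  have hs2 : (0 : ℤ) < s2 := by exact_mod_cast h2.spos
  have hdz : (1 : ℤ) ≤ d := by exact_mod_cast hd
  have hpos : (0 : ℤ) < (n1 : ℤ) * n2 + d * s1 * s2 := by positivity
  have hlt : x ^ 2 < (((a : ℤ) * b) ^ p) ^ 2 := by nlinarith [sq_nonneg x]
  have habs : |x| < ((a : ℤ) * b) ^ p := by
    apply abs_lt_of_sq_lt_sq hlt
    positivity
  have hx0 : x = 0 := Int.eq_zero_of_abs_lt_dvd k3 habs
  rw [hx0, zero_mul] at hprod
  have hab0 : ((a : ℤ) * b) ^ p ≠ 0 := by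
    have := ha.pos; have := hb.pos; positivity
  have hss : (s2 : ℤ) ^ 2 - (s1 : ℤ) ^ 2 = 0 := by
    rcases mul_eq_zero.1 hprod.symm with h | h
    · exact absurd h hab0
    · exact h
  have hs : (s2 : ℤ) = s1 := by
    have : (s2 : ℤ) ^ 2 = (s1 : ℤ) ^ 2 := by linarith
    exact (sq_eq_sq₀ hs2.le hs1.le).1 this
  have hn : (n1 : ℤ) = n2 := by
    have h7 : (n1 : ℤ) * s2 - n2 * s1 = 0 := hx0
    rw [hs] at h7
    have h8 : ((n1 : ℤ) - n2) * s1 = 0 := by linarith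
    rcases mul_eq_zero.1 h8 with h | h
    · linarith
    · exact absurd h hs1.ne'
  exact ⟨by exact_mod_cast hn, by exact_mod_cast hs.symm⟩

lemma small_four {a b p d : ℕ} (ha : a.Prime) (hb : b.Prime) (hab : a ≠ b) (hp : p ≠ 0)
    (hd : 0 < d) (S : Finset (ℕ × ℕ)) (hS : ∀ x ∈ S, Sol p d (a * b) x.1 x.2) : S.card ≤ 4 := by
  classical
  have fa : Fact a.Prime := ⟨ha⟩
  have fb : Fact b.Prime := ⟨hb⟩
  have nz : ∀ q : ℕ, q.Prime → q ∣ a * b → ∀ x ∈ S, ((x.2 : ℕ) : ZMod q) ≠ 0 := by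
    intro q hq hqm x hx h
    rw [ZMod.natCast_eq_zero_iff] at h
    exact (not_dvd_s hq hp hqm (hS x hx)).1 h
  have sqe : ∀ q : ℕ, q.Prime → q ∣ a * b → ∀ x ∈ S,
      ((x.1 : ℕ) : ZMod q) ^ 2 = -(d : ZMod q) * ((x.2 : ℕ) : ZMod q) ^ 2 := by
    intro q hq hqm x hx
    have h1 := (hS x hx).eq
    have h2 : (((x.1 ^ 2 + x.2 ^ 2 * d : ℕ)) : ZMod q) = 0 := by
      rw [h1, ZMod.natCast_eq_zero_iff]
      exact dvd_pow hqm hp
    push_cast at h2
    linear_combination h2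
  have hda := dvd_mul_right a b
  have hdb := dvd_mul_left b a
  have hcard : S.card ≤ ((Finset.univ.filter (fun x : ZMod a => x ^ 2 = -(d : ZMod a))) ×ˢ
      (Finset.univ.filter (fun x : ZMod b => x ^ 2 = -(d : ZMod b)))).card := by
    apply Finset.card_le_card_of_injOn (fun x => (((x.1 : ℕ) : ZMod a) * ((x.2 : ℕ) : ZMod a)⁻¹,
      ((x.1 : ℕ) : ZMod b) * ((x.2 : ℕ) : ZMod b)⁻¹))
    · intro x hx
      have hx := Finset.mem_coe.1 hx
      rw [Finset.mem_coe, mem_product, mem_filter, mem_filter]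
      refine ⟨⟨mem_univ _, ?_⟩, mem_univ _, ?_⟩
      · have := nz a ha hda x hx
        show (((x.1 : ℕ) : ZMod a) * ((x.2 : ℕ) : ZMod a)⁻¹) ^ 2 = _
        rw [mul_pow, sqe a ha hda x hx]
        field_simp
      · have := nz b hb hdb x hx
        show (((x.1 : ℕ) : ZMod b) * ((x.2 : ℕ) : ZMod b)⁻¹) ^ 2 = _
        rw [mul_pow, sqe b hb hdb x hx]
        field_simp
    · intro x hx y hy hxy
      have hx := Finset.mem_coe.1 hx
      have hy := Finset.mem_coe.1 hy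
      obtain ⟨q1, q2⟩ := Prod.ext_iff.1 hxy
      have q1 : ((x.1 : ℕ) : ZMod a) * ((x.2 : ℕ) : ZMod a)⁻¹ = ((y.1 : ℕ) : ZMod a) * ((y.2 : ℕ) : ZMod a)⁻¹ := q1
      have q2 : ((x.1 : ℕ) : ZMod b) * ((x.2 : ℕ) : ZMod b)⁻¹ = ((y.1 : ℕ) : ZMod b) * ((y.2 : ℕ) : ZMod b)⁻¹ := q2
      have r1 : (a : ℤ) ∣ (x.1 : ℤ) * y.2 - y.1 * x.2 := by
        rw [← ZMod.intCast_zmod_eq_zero_iff_dvd]
        push_cast
        have n1 := nz a ha hda x hx
        have n2 := nz a ha hda y hy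
        field_simp at q1
        linear_combination q1
      have r2 : (b : ℤ) ∣ (x.1 : ℤ) * y.2 - y.1 * x.2 := by
        rw [← ZMod.intCast_zmod_eq_zero_iff_dvd]
        push_cast
        have n1 := nz b hb hdb x hx
        have n2 := nz b hb hdb y hy
        field_simp at q2
        linear_combination q2
      have := two_sol ha hb hab hp hd (hS x hx) (hS y hy) r1 r2
      exact Prod.ext this.1 this.2
  have h1 := roots_le ha (-(d : ZMod a))
  have h2 := roots_le hb (-(d : ZMod b))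
  rw [card_product] at hcard
  calc S.card ≤ _ := hcard
    _ ≤ 2 * 2 := Nat.mul_le_mul (by convert h1) (by convert h2)
    _ = 4 := by norm_num

end Pool.Agent.TH827.CG
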